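import Mathlib

/-! # Smoothness of superposition operators on spaces of continuous functions -/

open ContinuousMap Set Filter Topology

namespace Pool.Agent.H33.Flow

universe u v

section nem

variable {K : Type v} [TopologicalSpace K] [CompactSpace K]
variable {F G : Type u} [NormedAddCommGroup F] [NormedSpace ℝ F]
  [NormedAddCommGroup G] [NormedSpace ℝ G]

/-- pointwise application of a continuous family of operators, as a bounded bilinear map -/
noncomputable def applyL (K : Type v) [TopologicalSpace K] [CompactSpace K]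
    (F G : Type u) [NormedAddCommGroup F] [NormedSpace ℝ F]
    [NormedAddCommGroup G] [NormedSpace ℝ G] :
    C(K, F →L[ℝ] G) →L[ℝ] C(K, F) →L[ℝ] C(K, G) :=
  LinearMap.mkContinuous₂
    (LinearMap.mk₂ ℝ
      (fun (A : C(K, F →L[ℝ] G)) (β : C(K, F)) =>
        (⟨fun x => A x (β x), A.continuous.clm_apply β.continuous⟩ : C(K, G)))
      (by intro A B β; ext x; simp)
      (by intro c A β; ext x; simp)
      (by intro A β γ; ext x; simp)
      (by intro c A β; ext x; simp)) 1
    (by
      intro A β
      rw [one_mul]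
      refine (ContinuousMap.norm_le _ (by positivity)).2 fun x => ?_
      simp only [LinearMap.mk₂_apply, ContinuousMap.coe_mk]
      calc ‖A x (β x)‖ ≤ ‖A x‖ * ‖β x‖ := (A x).le_opNorm _
        _ ≤ ‖A‖ * ‖β‖ := by
          gcongr
          · exact A.norm_coe_le_norm x
          · exact β.norm_coe_le_norm x)

@[simp] theorem applyL_apply (A : C(K, F →L[ℝ] G)) (β : C(K, F)) (x : K) :
    applyL K F G A β x = A x (β x) := rfl

theorem norm_applyL_le (A : C(K, F →L[ℝ] G)) : ‖applyL K F G A‖ ≤ ‖A‖ := by
  refine ContinuousLinearMap.opNorm_le_bound _ (by positivity) fun β => ?_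
  refine (ContinuousMap.norm_le _ (by positivity)).2 fun x => ?_
  rw [applyL_apply]
  calc ‖A x (β x)‖ ≤ ‖A x‖ * ‖β x‖ := (A x).le_opNorm _
    _ ≤ ‖A‖ * ‖β‖ := by
      gcongr
      · exact A.norm_coe_le_norm x
      · exact β.norm_coe_le_norm x

/-- the superposition operator is differentiable -/
theorem hasFDerivAt_nem (f : C(F, G)) (f' : C(F, F →L[ℝ] G))
    (hf : ∀ x, HasFDerivAt f (f' x) x) (α : C(K, F)) :
    HasFDerivAt (fun β : C(K, F) => f.comp β) (applyL K F G (f'.comp α)) α := by
  rw [hasFDerivAt_iff_isLittleO_nhds_zero, Asymptotics.isLittleO_iff]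
  intro c hc
  have hcomp : IsCompact (range α) := isCompact_range α.continuous
  have hr : {p : (F →L[ℝ] G) × (F →L[ℝ] G) | dist p.1 p.2 < c} ∈ uniformity (F →L[ℝ] G) :=
    Metric.dist_mem_uniformity hc
  have hu := hcomp.uniformContinuousAt_of_continuousAt f'
    (fun a _ => f'.continuous.continuousAt) hr
  rw [Metric.mem_uniformity_dist] at hu
  obtain ⟨δ, hδ, hu⟩ := hu
  filter_upwards [Metric.ball_mem_nhds (0 : C(K, F)) hδ] with β hβ
  rw [Metric.mem_ball, dist_zero_right] at hβ
  refine (ContinuousMap.norm_le _ (by positivity)).2 fun x => ?_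
  have hx : ‖β x‖ ≤ ‖β‖ := β.norm_coe_le_norm x
  simp only [ContinuousMap.sub_apply, ContinuousMap.comp_apply, ContinuousMap.add_apply,
    applyL_apply]
  have key := (convex_ball (α x) δ).norm_image_sub_le_of_norm_hasFDerivWithin_le'
    (f := f) (f' := fun y => f' y) (φ := f' (α x)) (C := c) (x := α x) (y := α x + β x)
    (fun y _ => (hf y).hasFDerivWithinAt)
    (fun y hy => by
      have := @hu (α x) y (by rw [dist_comm]; exact hy) (mem_range_self x)
      simp only [Set.mem_ofPred_eq] at this
      rw [← dist_eq_norm, dist_comm]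
      exact this.le)
    (Metric.mem_ball_self hδ)
    (by rw [Metric.mem_ball, dist_eq_norm, add_sub_cancel_left]; exact lt_of_le_of_lt hx hβ)
  rw [add_sub_cancel_left] at key
  exact key.trans (by gcongr)

theorem contDiff_nem_nat (n : ℕ) : ∀ {G : Type u} [NormedAddCommGroup G] [NormedSpace ℝ G]
    (f : C(F, G)), ContDiff ℝ n f → ContDiff ℝ n (fun β : C(K, F) => f.comp β) := by
  induction n with
  | zero =>
    intro G _ _ f _
    exact contDiff_zero.2 (ContinuousMap.continuous_postcomp f)
  | succ n ih =>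
    intro G _ _ f hf
    have hf1 : ContDiff ℝ n (fderiv ℝ f) := by
      have h := (contDiff_succ_iff_fderiv (n := (n : WithTop ℕ∞))).1 (by exact_mod_cast hf)
      exact h.2.2
    have hdf : Differentiable ℝ f := hf.differentiable (by simp)
    let f' : C(F, F →L[ℝ] G) := ⟨fderiv ℝ f, hf1.continuous⟩
    have hd : ∀ x, HasFDerivAt f (f' x) x := fun x => (hdf x).hasFDerivAt
    have hd2 : ∀ α : C(K, F), HasFDerivAt (fun β : C(K, F) => f.comp β)
      (applyL K F G (f'.comp α)) α := fun α => hasFDerivAt_nem f f' hd α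
    have : ((n + 1 : ℕ) : WithTop ℕ∞) = (n : WithTop ℕ∞) + 1 := by norm_cast
    rw [this, contDiff_succ_iff_hasFDerivAt]
    refine ⟨fun α => applyL K F G (f'.comp α), ?_, hd2⟩
    exact (applyL K F G).contDiff.comp (ih f' hf1)

/-- superposition operators of smooth maps are smooth -/
theorem contDiff_nem (f : C(F, G)) (hf : ContDiff ℝ (⊤ : ℕ∞) f) :
    ContDiff ℝ (⊤ : ℕ∞) (fun β : C(K, F) => f.comp β) := by
  rw [contDiff_infty]
  intro n
  exact contDiff_nem_nat n f (contDiff_infty.1 hf n)

end nem

end Pool.Agent.H33.Flow
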