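import Mathlib
import Pool.Agent.H33.Nemytskii

/-! # Smooth flows of smooth time dependent vector fields (Banach space valued) -/

open ContinuousMap Set Filter Topology MeasureTheory
open scoped unitInterval

set_option linter.unusedSectionVars false

namespace Pool.Agent.H33.Flow

universe u

variable {E : Type u} [NormedAddCommGroup E] [NormedSpace ℝ E] [CompleteSpace E]

/-- primitive vanishing at `0` on the unit interval -/
noncomputable def primFun (β : C(I, E)) (s : ℝ) : E :=
  ∫ r in (0 : ℝ)..s, Set.IccExtend (zero_le_one) β r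

theorem continuous_extend (β : C(I, E)) :
    Continuous (Set.IccExtend (zero_le_one (α := ℝ)) β) := β.continuous.Icc_extend'

theorem hasDerivAt_primFun (β : C(I, E)) (s : ℝ) :
    HasDerivAt (primFun β) (Set.IccExtend (zero_le_one (α := ℝ)) β s) s :=
  intervalIntegral.integral_hasDerivAt_right ((continuous_extend β).intervalIntegrable _ _)
    (continuous_extend β).stronglyMeasurable.stronglyMeasurableAtFilter
    (continuous_extend β).continuousAt

theorem continuous_primFun (β : C(I, E)) : Continuous (primFun β) :=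
  continuous_iff_continuousAt.2 fun s => (hasDerivAt_primFun β s).continuousAt

theorem norm_primFun_le (β : C(I, E)) {s : ℝ} (hs : s ∈ Icc (0 : ℝ) 1) :
    ‖primFun β s‖ ≤ s * ‖β‖ := by
  have h : ∀ r ∈ Set.uIoc (0 : ℝ) s, ‖Set.IccExtend (zero_le_one (α := ℝ)) β r‖ ≤ ‖β‖ := by
    intro r _
    exact β.norm_coe_le_norm _
  have := intervalIntegral.norm_integral_le_of_norm_le_const h
  rw [sub_zero, abs_of_nonneg hs.1] at this
  rw [mul_comm]
  exact this

/-- integration as a bounded operator on `C([0,1],E)` -/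
noncomputable def J : C(I, E) →L[ℝ] C(I, E) :=
  LinearMap.mkContinuous
    { toFun := fun β => ⟨fun s => primFun β s, (continuous_primFun β).comp continuous_subtype_val⟩
      map_add' := by
        intro β γ
        ext s
        simp only [primFun, ContinuousMap.coe_mk, ContinuousMap.add_apply]
        rw [← intervalIntegral.integral_add ((continuous_extend β).intervalIntegrable _ _)
          ((continuous_extend γ).intervalIntegrable _ _)]
        rfl
      map_smul' := by
        intro c β
        ext s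
        simp only [primFun, ContinuousMap.coe_mk, ContinuousMap.smul_apply, RingHom.id_apply]
        rw [← intervalIntegral.integral_smul]
        rfl } 1
    (by
      intro β
      rw [one_mul]
      refine (ContinuousMap.norm_le _ (norm_nonneg _)).2 fun s => ?_
      have h := norm_primFun_le β s.2
      refine h.trans ?_
      calc (s : ℝ) * ‖β‖ ≤ 1 * ‖β‖ := by
            gcongr
            exact s.2.2
        _ = ‖β‖ := one_mul _)

@[simp] theorem J_apply (β : C(I, E)) (s : I) : J β s = primFun β s := rfl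

theorem norm_J_le (β : C(I, E)) : ‖J β‖ ≤ ‖β‖ := by
  refine (ContinuousMap.norm_le _ (norm_nonneg _)).2 fun s => ?_
  rw [J_apply]
  refine (norm_primFun_le β s.2).trans ?_
  calc (s : ℝ) * ‖β‖ ≤ 1 * ‖β‖ := by
        gcongr
        exact s.2.2
    _ = ‖β‖ := one_mul _

/-- parameters: initial time, final time, initial point -/
abbrev Par (E : Type u) := ℝ × ℝ × E

/-- the affine time change and the path, as a continuous linear map into `C([0,1], ℝ × E)` -/
noncomputable def pathL : (Par E × C(I, E)) →L[ℝ] C(I, ℝ × E) :=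
  LinearMap.mkContinuous
    { toFun := fun q =>
        ⟨fun s => (q.1.1 + (q.1.2.1 - q.1.1) * s, q.2 s), by fun_prop⟩
      map_add' := by
        intro p q
        ext s
        · simp; ring
        · simp
      map_smul' := by
        intro c p
        ext s
        · simp; ring
        · simp } 2
    (by
      intro q
      refine (ContinuousMap.norm_le _ (by positivity)).2 fun s => ?_
      have h1 : ‖q.1.1‖ ≤ ‖q‖ := (norm_fst_le q.1).trans (norm_fst_le q)
      have h2 : ‖q.1.2.1‖ ≤ ‖q‖ :=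
        (norm_fst_le q.1.2).trans ((norm_snd_le q.1).trans (norm_fst_le q))
      have h3 : ‖q.2 s‖ ≤ ‖q‖ := (q.2.norm_coe_le_norm s).trans (norm_snd_le q)
      simp only [LinearMap.coe_mk, AddHom.coe_mk, ContinuousMap.coe_mk]
      refine max_le ?_ (h3.trans (by linarith [norm_nonneg q]))
      have : q.1.1 + (q.1.2.1 - q.1.1) * (s : ℝ) = (1 - (s : ℝ)) * q.1.1 + s * q.1.2.1 := by ring
      simp only
      rw [this]
      have hs0 := s.2.1
      have hs1 := s.2.2
      calc ‖(1 - (s : ℝ)) * q.1.1 + s * q.1.2.1‖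
          ≤ ‖(1 - (s : ℝ)) * q.1.1‖ + ‖(s : ℝ) * q.1.2.1‖ := norm_add_le _ _
        _ = (1 - (s : ℝ)) * ‖q.1.1‖ + s * ‖q.1.2.1‖ := by
            rw [norm_mul, norm_mul, Real.norm_of_nonneg (sub_nonneg.2 hs1),
              Real.norm_of_nonneg hs0]
        _ ≤ (1 - (s : ℝ)) * ‖q‖ + s * ‖q‖ :=
            add_le_add (mul_le_mul_of_nonneg_left h1 (sub_nonneg.2 hs1))
              (mul_le_mul_of_nonneg_left h2 hs0)
        _ = ‖q‖ := by ring
        _ ≤ 2 * ‖q‖ := by linarith [norm_nonneg q])

@[simp] theorem pathL_apply (q : Par E × C(I, E)) (s : I) :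
    pathL q s = (q.1.1 + (q.1.2.1 - q.1.1) * s, q.2 s) := rfl

/-- constants as a continuous linear map -/
noncomputable def constL : E →L[ℝ] C(I, E) :=
  LinearMap.mkContinuous
    { toFun := fun x => ContinuousMap.const I x
      map_add' := by intro x y; ext s; simp
      map_smul' := by intro c x; ext s; simp } 1
    (by
      intro x
      rw [one_mul]
      exact (ContinuousMap.norm_le _ (norm_nonneg _)).2 fun s => le_rfl)

@[simp] theorem constL_apply (x : E) (s : I) : constL x s = x := rfl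

/-- the equation whose zeroes are the rescaled trajectories -/
noncomputable def Eqn (w : C(ℝ × E, E)) (q : Par E × C(I, E)) : C(I, E) :=
  q.2 - constL q.1.2.2 - (q.1.2.1 - q.1.1) • J (w.comp (pathL q))

theorem contDiff_Eqn (w : C(ℝ × E, E)) (hw : ContDiff ℝ (⊤ : ℕ∞) w) :
    ContDiff ℝ (⊤ : ℕ∞) (Eqn w) := by
  unfold Eqn
  have h1 : ContDiff ℝ (⊤ : ℕ∞) (fun q : Par E × C(I, E) => J (w.comp (pathL q))) :=
    J.contDiff.comp ((contDiff_nem w hw).comp pathL.contDiff)
  have h2 : ContDiff ℝ (⊤ : ℕ∞) (fun q : Par E × C(I, E) => constL (E := E) q.1.2.2) :=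
    (constL (E := E)).contDiff.comp
      (contDiff_snd.comp (contDiff_snd.comp contDiff_fst) :
        ContDiff ℝ (⊤ : ℕ∞) (fun q : Par E × C(I, E) => q.1.2.2))
  have h3 : ContDiff ℝ (⊤ : ℕ∞) (fun q : Par E × C(I, E) => q.1.2.1 - q.1.1) :=
    (contDiff_fst.comp (contDiff_snd.comp contDiff_fst)).sub (contDiff_fst.comp contDiff_fst)
  exact (contDiff_snd.sub h2).sub (h3.smul h1)

/-- a globally defined smooth field which is `K`-Lipschitz in space for `|t| < R`, with `2RK < 1` -/
structure Good (w : ℝ × E → E) (R K : ℝ) : Prop where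
  smooth : ContDiff ℝ (⊤ : ℕ∞) w
  hR : 0 < R
  hK : 0 ≤ K
  small : 2 * R * K < 1
  lip : ∀ t, |t| < R → ∀ x y, ‖w (t, x) - w (t, y)‖ ≤ K * ‖x - y‖

theorem path_mem {R t0 t1 : ℝ} (h0 : |t0| < R) (h1 : |t1| < R) (s : I) :
    |t0 + (t1 - t0) * s| < R := by
  have hs0 := s.2.1
  have hs1 := s.2.2
  rw [abs_lt] at *
  constructor <;> nlinarith [mul_nonneg hs0 (sub_nonneg.2 h1.1.le),
    mul_nonneg (sub_nonneg.2 hs1) (sub_nonneg.2 h0.1.le), mul_nonneg hs0 (sub_nonneg.2 h1.2.le),
    mul_nonneg (sub_nonneg.2 hs1) (sub_nonneg.2 h0.2.le)]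

theorem Eqn_apply (w : C(ℝ × E, E)) (q : Par E × C(I, E)) (s : I) :
    Eqn w q s = q.2 s - q.1.2.2 - (q.1.2.1 - q.1.1) •
      ∫ r in (0 : ℝ)..s, w (Set.IccExtend (zero_le_one (α := ℝ)) (pathL q) r) := rfl

/-- the basic comparison estimate between two solutions -/
theorem est {w w' : C(ℝ × E, E)} {R K : ℝ} (h : Good w R K) {t0 t1 : ℝ} {x x' : E}
    (h0 : |t0| < R) (h1 : |t1| < R) {α β : C(I, E)}
    {δ : ℝ} (hδ0 : 0 ≤ δ)
    (hδ : ∀ s : I, ‖w (t0 + (t1 - t0) * s, β s) - w' (t0 + (t1 - t0) * s, β s)‖ ≤ δ) :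
    ‖(α - β - constL (x - x')) - (Eqn w ((t0, t1, x), α) - Eqn w' ((t0, t1, x'), β))‖
      ≤ |t1 - t0| * (δ + K * ‖α - β‖) := by
  have e : (α - β - constL (x - x')) - (Eqn w ((t0, t1, x), α) - Eqn w' ((t0, t1, x'), β))
      = (t1 - t0) • J (w.comp (pathL ((t0, t1, x), α)) - w'.comp (pathL ((t0, t1, x'), β))) := by
    unfold Eqn
    rw [map_sub, map_sub, smul_sub]
    simp only
    abel
  rw [e, norm_smul, Real.norm_eq_abs]
  gcongr
  refine (norm_J_le _).trans ?_
  refine (ContinuousMap.norm_le _ (by positivity [h.hK])).2 fun s => ?_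
  simp only [ContinuousMap.sub_apply, ContinuousMap.comp_apply, pathL_apply]
  have hm := path_mem h0 h1 s
  calc ‖w (t0 + (t1 - t0) * s, α s) - w' (t0 + (t1 - t0) * s, β s)‖
      = ‖(w (t0 + (t1 - t0) * s, β s) - w' (t0 + (t1 - t0) * s, β s)) +
        (w (t0 + (t1 - t0) * s, α s) - w (t0 + (t1 - t0) * s, β s))‖ := by congr 1; abel
    _ ≤ δ + K * ‖α s - β s‖ := (norm_add_le _ _).trans (add_le_add (hδ s) (h.lip _ hm _ _))
    _ ≤ δ + K * ‖α - β‖ := by
      have := (α - β).norm_coe_le_norm s
      rw [ContinuousMap.sub_apply] at this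
      have hK := h.hK
      gcongr

end Pool.Agent.H33.Flow
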