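import Mathlib
import Pool.Agent.H33.FlowCore

/-! # The flow map: existence, uniqueness, smoothness -/

open ContinuousMap Set Filter Topology MeasureTheory
open scoped unitInterval

set_option linter.unusedSectionVars false

namespace Pool.Agent.H33.Flow

universe u

variable {E : Type u} [NormedAddCommGroup E] [NormedSpace ℝ E] [CompleteSpace E]

theorem Good.dt_lt {w : ℝ × E → E} {R K : ℝ} (h : Good w R K) {t0 t1 : ℝ}
    (h0 : |t0| < R) (h1 : |t1| < R) : |t1 - t0| * K < 1 := by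
  have : |t1 - t0| ≤ 2 * R := by
    refine (abs_sub _ _).trans ?_
    linarith
  calc |t1 - t0| * K ≤ 2 * R * K := mul_le_mul_of_nonneg_right this h.hK
    _ < 1 := h.small

theorem est_same {w : C(ℝ × E, E)} {R K : ℝ} (h : Good w R K) {t0 t1 : ℝ} {x x' : E}
    (h0 : |t0| < R) (h1 : |t1| < R) (α β : C(I, E)) :
    ‖(α - β - constL (x - x')) - (Eqn w ((t0, t1, x), α) - Eqn w ((t0, t1, x'), β))‖
      ≤ |t1 - t0| * K * ‖α - β‖ := by
  have := est (w' := w) (x := x) (x' := x') h h0 h1 (α := α) (β := β) (δ := 0) le_rfl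
    (fun s => by simp)
  rw [zero_add] at this
  rw [mul_assoc]
  exact this

theorem sol_unique' {w : C(ℝ × E, E)} {R K : ℝ} (h : Good w R K) {t0 t1 : ℝ} {x : E}
    (h0 : |t0| < R) (h1 : |t1| < R) {α β : C(I, E)}
    (hα : Eqn w ((t0, t1, x), α) = 0) (hβ : Eqn w ((t0, t1, x), β) = 0) : α = β := by
  have := est_same (x := x) (x' := x) h h0 h1 α β
  rw [hα, hβ] at this
  simp only [sub_self, map_zero, sub_zero] at this
  have hlt := h.dt_lt h0 h1
  have : ‖α - β‖ ≤ 0 := by nlinarith [norm_nonneg (α - β)]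
  exact sub_eq_zero.1 (norm_le_zero_iff.1 this)

theorem exists_sol {w : C(ℝ × E, E)} {R K : ℝ} (h : Good w R K) {t0 t1 : ℝ}
    (h0 : |t0| < R) (h1 : |t1| < R) (x : E) : ∃ α : C(I, E), Eqn w ((t0, t1, x), α) = 0 := by
  let T : C(I, E) → C(I, E) := fun α => α - Eqn w ((t0, t1, x), α)
  have hq := h.dt_lt h0 h1
  have hq0 : 0 ≤ |t1 - t0| * K := mul_nonneg (abs_nonneg _) h.hK
  have hT : ContractingWith ⟨|t1 - t0| * K, hq0⟩ T := by
    refine ⟨by exact_mod_cast hq, LipschitzWith.of_dist_le_mul fun α β => ?_⟩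
    rw [dist_eq_norm, dist_eq_norm]
    have := est_same (x := x) (x' := x) h h0 h1 α β
    simp only [sub_self, map_zero, sub_zero] at this
    have e : T α - T β = (α - β) - (Eqn w ((t0, t1, x), α) - Eqn w ((t0, t1, x), β)) :=
      sub_sub_sub_comm _ _ _ _
    rw [e]
    exact this
  obtain ⟨α, hα, -⟩ := hT.exists_fixedPoint (0 : C(I, E)) (edist_ne_top _ _)
  refine ⟨α, ?_⟩
  have : T α = α := hα
  simp only [T] at this
  exact sub_eq_self.1 this

open Classical in
/-- the rescaled trajectory with parameters `p = (t0, t1, x)` -/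
noncomputable def sol (w : C(ℝ × E, E)) (p : Par E) : C(I, E) :=
  if h : ∃ α : C(I, E), Eqn w (p, α) = 0 then h.choose else 0

theorem sol_spec {w : C(ℝ × E, E)} {R K : ℝ} (h : Good w R K) {p : Par E}
    (h0 : |p.1| < R) (h1 : |p.2.1| < R) : Eqn w (p, sol w p) = 0 := by
  have hex : ∃ α : C(I, E), Eqn w (p, α) = 0 := exists_sol h h0 h1 p.2.2
  unfold sol
  rw [dif_pos hex]
  exact hex.choose_spec

theorem sol_eq {w : C(ℝ × E, E)} {R K : ℝ} (h : Good w R K) {p : Par E}
    (h0 : |p.1| < R) (h1 : |p.2.1| < R) {α : C(I, E)} (hα : Eqn w (p, α) = 0) :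
    sol w p = α :=
  sol_unique' h (t0 := p.1) (t1 := p.2.1) (x := p.2.2) h0 h1 (sol_spec h h0 h1) hα

/-- the derivative in the path variable is invertible -/
theorem isInvertible_Eqn {w : C(ℝ × E, E)} {R K : ℝ} (h : Good w R K) {p : Par E}
    (h0 : |p.1| < R) (h1 : |p.2.1| < R) (α : C(I, E)) :
    (fderiv ℝ (Eqn w) (p, α) ∘L .inr ℝ (Par E) (C(I, E))).IsInvertible := by
  obtain ⟨t0, t1, x⟩ := p
  have hdiff : HasFDerivAt (Eqn w) (fderiv ℝ (Eqn w) ((t0, t1, x), α)) ((t0, t1, x), α) :=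
    ((contDiff_Eqn w h.smooth).differentiable (by simp) _).hasFDerivAt
  set L := fderiv ℝ (Eqn w) ((t0, t1, x), α) ∘L .inr ℝ (Par E) (C(I, E)) with hL
  have h2 : HasFDerivAt (fun β => Eqn w ((t0, t1, x), β)) L α := by
    have := hdiff.comp α (hasFDerivAt_prodMk_right (𝕜 := ℝ) ((t0, t1, x) : Par E) α)
    exact this
  have h3 : HasFDerivAt (fun β => β - Eqn w ((t0, t1, x), β)) (1 - L) α :=
    (hasFDerivAt_id α).sub h2
  have hq := h.dt_lt h0 h1
  have hq0 : 0 ≤ |t1 - t0| * K := mul_nonneg (abs_nonneg _) h.hK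
  have hlip : LipschitzWith ⟨|t1 - t0| * K, hq0⟩
      (fun β => β - Eqn w ((t0, t1, x), β)) := by
    refine LipschitzWith.of_dist_le_mul fun α β => ?_
    rw [dist_eq_norm, dist_eq_norm]
    have := est_same (x := x) (x' := x) h h0 h1 α β
    simp only [sub_self, map_zero, sub_zero] at this
    rw [sub_sub_sub_comm]
    exact this
  have hn : ‖(1 - L : C(I, E) →L[ℝ] C(I, E))‖ < 1 := by
    refine lt_of_le_of_lt (h3.le_of_lipschitz hlip) ?_
    exact hq
  let U := Units.oneSub (1 - L) hn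
  have hU : (U : C(I, E) →L[ℝ] C(I, E)) = L := by
    simp [U, Units.oneSub]
  refine ⟨ContinuousLinearEquiv.unitsEquiv ℝ (C(I, E)) U, ?_⟩
  ext1 β
  have : (ContinuousLinearEquiv.unitsEquiv ℝ (C(I, E)) U) β
    = (U : C(I, E) →L[ℝ] C(I, E)) β := rfl
  rw [ContinuousLinearEquiv.coe_coe, this, hU]

theorem contDiffAt_sol {w : C(ℝ × E, E)} {R K : ℝ} (h : Good w R K) {p : Par E}
    (h0 : |p.1| < R) (h1 : |p.2.1| < R) : ContDiffAt ℝ (⊤ : ℕ∞) (sol w) p := by
  have cdf : ContDiffAt ℝ (⊤ : ℕ∞) (Eqn w) (p, sol w p) := (contDiff_Eqn w h.smooth).contDiffAt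
  have hinv := isInvertible_Eqn h h0 h1 (sol w p)
  have hn : ((⊤ : ℕ∞) : WithTop ℕ∞) ≠ 0 := by simp
  have h4 := cdf.contDiffAt_implicitFunction hn hinv
  refine h4.congr_of_eventuallyEq ?_
  have h5 := cdf.eventually_apply_implicitFunction hn hinv
  simp only at h5 h4 ⊢
  rw [sol_spec h h0 h1] at h5
  have h6 : ∀ᶠ q : Par E in 𝓝 p, |q.1| < R :=
    (isOpen_lt (continuous_abs.comp continuous_fst) continuous_const).mem_nhds h0
  have h7 : ∀ᶠ q : Par E in 𝓝 p, |q.2.1| < R :=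
    (isOpen_lt (continuous_abs.comp (continuous_fst.comp continuous_snd))
      continuous_const).mem_nhds h1
  filter_upwards [h5, h6, h7] with q hq hq0 hq1
  exact sol_eq h hq0 hq1 hq

/-- the flow map from time `t0` to time `t1` -/
noncomputable def flow (w : C(ℝ × E, E)) (t0 t1 : ℝ) (x : E) : E := sol w (t0, t1, x) 1

/-- evaluation at the end point is continuous linear -/
noncomputable def evalOne : C(I, E) →L[ℝ] E := ContinuousMap.evalCLM ℝ (1 : I)

theorem contDiffAt_flow {w : C(ℝ × E, E)} {R K : ℝ} (h : Good w R K) {t0 t1 : ℝ} {x : E}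
    (h0 : |t0| < R) (h1 : |t1| < R) :
    ContDiffAt ℝ (⊤ : ℕ∞) (fun p : Par E => flow w p.1 p.2.1 p.2.2) (t0, t1, x) := by
  have := (evalOne (E := E)).contDiff.contDiffAt.comp (t0, t1, x)
    (contDiffAt_sol h (p := (t0, t1, x)) h0 h1)
  exact this

theorem sol_scale {w : C(ℝ × E, E)} {R K : ℝ} (h : Good w R K) {t0 t1 : ℝ} {x : E}
    (h0 : |t0| < R) (h1 : |t1| < R) (s : I) :
    sol w (t0, t1, x) s = flow w t0 (t0 + (t1 - t0) * s) x := by
  have hs := path_mem h0 h1 s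
  set α := sol w (t0, t1, x) with hα
  let sc : C(I, I) := ⟨fun r => ⟨(s : ℝ) * r, unitInterval.mul_mem s.2 r.2⟩, by fun_prop⟩
  have key : sol w (t0, t0 + (t1 - t0) * s, x) = α.comp sc := by
    refine sol_eq h h0 hs ?_
    have hE := sol_spec h (p := (t0, t1, x)) h0 h1
    rw [← hα] at hE
    ext r
    rw [Eqn_apply]
    have h2 : Eqn w ((t0, t1, x), α) (sc r) = (0 : C(I, E)) (sc r) := by rw [hE]
    rw [Eqn_apply] at h2
    simp only [ContinuousMap.zero_apply, ContinuousMap.comp_apply] at h2 ⊢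
    rw [← h2]
    congr 1
    have e1 : ((t0 + (t1 - t0) * s - t0) : ℝ) = (t1 - t0) * s := by ring
    rw [e1, mul_smul]
    congr 1
    have e2 : ((sc r : I) : ℝ) = s * r := rfl
    rw [e2]
    have e3 := intervalIntegral.smul_integral_comp_mul_left (a := 0) (b := (r : ℝ))
      (fun y => w (Set.IccExtend (zero_le_one (α := ℝ)) (pathL (((t0, t1, x) : Par E), α)) y))
      (s : ℝ)
    rw [mul_zero] at e3
    rw [← e3]
    congr 1
    refine intervalIntegral.integral_congr fun y hy => ?_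
    rw [uIcc_of_le r.2.1] at hy
    have hy1 : y ∈ Icc (0 : ℝ) 1 := ⟨hy.1, hy.2.trans r.2.2⟩
    have hy2 : (s : ℝ) * y ∈ Icc (0 : ℝ) 1 := unitInterval.mul_mem s.2 hy1
    rw [Set.IccExtend_of_mem _ _ hy1, Set.IccExtend_of_mem _ _ hy2]
    simp only [pathL_apply]
    congr 1
    refine Prod.ext ?_ rfl
    simp only
    ring
  unfold flow
  rw [key]
  simp only [ContinuousMap.comp_apply]
  congr 1
  ext
  simp [sc]

end Pool.Agent.H33.Flow
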