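import Mathlib
import Pool.Agent.H33.FlowSol

/-! # The flow map: differential equation, group property, transport, estimates -/

open ContinuousMap Set Filter Topology MeasureTheory
open scoped unitInterval

set_option linter.unusedSectionVars false

namespace Pool.Agent.H33.Flow

universe u

variable {E : Type u} [NormedAddCommGroup E] [NormedSpace ℝ E] [CompleteSpace E]

section basic

variable {w : C(ℝ × E, E)} {R K : ℝ}

theorem contDiffAt_flow_time (h : Good w R K) {t0 t1 : ℝ} {x : E}
    (h0 : |t0| < R) (h1 : |t1| < R) :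
    ContDiffAt ℝ (⊤ : ℕ∞) (fun t => flow w t0 t x) t1 := by
  have h2 : ContDiffAt ℝ (⊤ : ℕ∞) (fun t : ℝ => ((t0, t, x) : Par E)) t1 :=
    contDiffAt_const.prodMk (contDiffAt_id.prodMk contDiffAt_const)
  exact (contDiffAt_flow h (x := x) h0 h1).comp t1 h2

theorem continuousAt_flow_time (h : Good w R K) {t0 t1 : ℝ} {x : E}
    (h0 : |t0| < R) (h1 : |t1| < R) :
    ContinuousAt (fun t => flow w t0 t x) t1 :=
  (contDiffAt_flow_time h h0 h1).continuousAt

theorem mem_of_uIcc {t0 t1 r : ℝ} (h0 : |t0| < R) (h1 : |t1| < R) (hr : r ∈ uIcc t0 t1) :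
    |r| < R := by
  rw [abs_lt] at *
  rw [mem_uIcc] at hr
  rcases hr with hr | hr
  · exact ⟨by linarith [h0.1, hr.1], by linarith [h1.2, hr.2]⟩
  · exact ⟨by linarith [h1.1, hr.1], by linarith [h0.2, hr.2]⟩

theorem continuousOn_flow_field (h : Good w R K) {t0 : ℝ} {x : E} (h0 : |t0| < R)
    {s : Set ℝ} (hs : ∀ r ∈ s, |r| < R) :
    ContinuousOn (fun r => w (r, flow w t0 r x)) s := by
  intro r hr
  have h1 : ContinuousAt (fun r : ℝ => (r, flow w t0 r x)) r :=
    continuousAt_id.prodMk (continuousAt_flow_time h h0 (hs r hr))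
  exact (ContinuousAt.comp (f := fun r : ℝ => (r, flow w t0 r x))
    w.continuous.continuousAt h1).continuousWithinAt

theorem flow_integral (h : Good w R K) {t0 t1 : ℝ} (x : E)
    (h0 : |t0| < R) (h1 : |t1| < R) :
    flow w t0 t1 x = x + ∫ r in t0..t1, w (r, flow w t0 r x) := by
  have hE := sol_spec h (p := (t0, t1, x)) h0 h1
  have h2 : Eqn w ((t0, t1, x), sol w (t0, t1, x)) 1 = (0 : C(I, E)) 1 := by rw [hE]
  rw [Eqn_apply, ContinuousMap.zero_apply] at h2
  have e3 := intervalIntegral.smul_integral_comp_add_mul (a := 0) (b := 1)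
    (fun r => w (r, flow w t0 r x)) (t1 - t0) t0
  rw [mul_zero, mul_one, add_zero, add_sub_cancel] at e3
  rw [← e3]
  have e4 : (∫ r in (0 : ℝ)..((1 : I) : ℝ), w (Set.IccExtend (zero_le_one (α := ℝ))
      (pathL (((t0, t1, x) : Par E), sol w (t0, t1, x))) r))
      = ∫ r in (0 : ℝ)..1, w (t0 + (t1 - t0) * r, flow w t0 (t0 + (t1 - t0) * r) x) := by
    have : ((1 : I) : ℝ) = 1 := rfl
    rw [this]
    refine intervalIntegral.integral_congr fun y hy => ?_
    rw [uIcc_of_le zero_le_one] at hy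
    rw [Set.IccExtend_of_mem _ _ hy]
    simp only [pathL_apply]
    rw [sol_scale h h0 h1]
  rw [e4] at h2
  have h3 : flow w t0 t1 x = sol w (t0, t1, x) 1 := rfl
  rw [h3]
  rw [sub_sub, sub_eq_zero] at h2
  exact h2

theorem flow_self (h : Good w R K) {t : ℝ} (x : E) (ht : |t| < R) : flow w t t x = x := by
  rw [flow_integral h x ht ht, intervalIntegral.integral_same, add_zero]

theorem hasDerivAt_flow (h : Good w R K) {t0 t1 : ℝ} (x : E)
    (h0 : |t0| < R) (h1 : |t1| < R) :
    HasDerivAt (fun t => flow w t0 t x) (w (t1, flow w t0 t1 x)) t1 := by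
  have hev : (fun t => flow w t0 t x) =ᶠ[𝓝 t1]
      fun t => x + ∫ r in t0..t, w (r, flow w t0 r x) := by
    have : ∀ᶠ t in 𝓝 t1, |t| < R := (isOpen_lt continuous_abs continuous_const).mem_nhds h1
    filter_upwards [this] with t ht
    exact flow_integral h x h0 ht
  refine HasDerivAt.congr_of_eventuallyEq ?_ hev
  refine HasDerivAt.const_add x ?_
  have hopen : IsOpen {t : ℝ | |t| < R} := isOpen_lt continuous_abs continuous_const
  have hc := continuousOn_flow_field h (x := x) h0 (s := {t : ℝ | |t| < R}) (fun _ hr => hr)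
  refine intervalIntegral.integral_hasDerivAt_right ?_ ?_ ?_
  · exact (hc.mono fun r hr => mem_of_uIcc h0 h1 hr).intervalIntegrable
  · exact hc.stronglyMeasurableAtFilter hopen t1 h1
  · exact hc.continuousAt (hopen.mem_nhds h1)

theorem flow_unique (h : Good w R K) {g : ℝ → E}
    (hg : ∀ t, |t| < R → HasDerivAt g (w (t, g t)) t) {t0 t1 : ℝ}
    (h0 : |t0| < R) (h1 : |t1| < R) : flow w t0 t1 (g t0) = g t1 := by
  have := ODE_solution_unique_of_mem_Ioo (v := fun t y => w (t, y)) (s := fun _ => univ)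
    (K := ⟨K, h.hK⟩) (a := -R) (b := R) (t₀ := t0) (f := fun t => flow w t0 t (g t0)) (g := g)
    (fun t' ht => (LipschitzWith.of_dist_le_mul fun y z => by
      rw [dist_eq_norm, dist_eq_norm]
      exact h.lip t' (abs_lt.2 ht) y z).lipschitzOnWith)
    (abs_lt.1 h0) (fun _ ht => ⟨hasDerivAt_flow h _ h0 (abs_lt.2 ht), mem_univ _⟩)
    (fun t ht => ⟨hg t (abs_lt.2 ht), mem_univ _⟩) (flow_self h _ h0)
  exact this (abs_lt.1 h1)

theorem flow_flow (h : Good w R K) {t0 t1 t2 : ℝ} (x : E)
    (h0 : |t0| < R) (h1 : |t1| < R) (h2 : |t2| < R) :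
    flow w t1 t2 (flow w t0 t1 x) = flow w t0 t2 x :=
  flow_unique h (g := fun t => flow w t0 t x) (fun t ht => hasDerivAt_flow h x h0 ht) h1 h2

/-- the back-to-labels map `Y(t,x)` -/
noncomputable def back (w : C(ℝ × E, E)) (z : ℝ × E) : E := flow w z.1 0 z.2

theorem back_zero (h : Good w R K) (x : E) : back w (0, x) = x :=
  flow_self h x (by simpa using h.hR)

theorem back_flow (h : Good w R K) {t : ℝ} (ht : |t| < R) (x : E) :
    back w (t, flow w 0 t x) = x := by
  have hR : |(0 : ℝ)| < R := by simpa using h.hR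
  have := flow_flow h x hR ht hR
  rw [flow_self h x hR] at this
  exact this

theorem flow_back (h : Good w R K) {t : ℝ} (ht : |t| < R) (x : E) :
    flow w 0 t (back w (t, x)) = x := by
  have hR : |(0 : ℝ)| < R := by simpa using h.hR
  have := flow_flow h x ht hR ht
  rw [flow_self h x ht] at this
  exact this

/-- the back-to-labels map is constant along trajectories -/
theorem back_along (h : Good w R K) {t s : ℝ} (ht : |t| < R) (hs : |s| < R) (x : E) :
    back w (s, flow w t s x) = back w (t, x) :=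
  flow_flow h x ht hs (by simpa using h.hR)

theorem contDiffAt_back (h : Good w R K) {z : ℝ × E} (hz : |z.1| < R) :
    ContDiffAt ℝ (⊤ : ℕ∞) (back w) z := by
  have h2 : ContDiffAt ℝ (⊤ : ℕ∞) (fun z : ℝ × E => ((z.1, 0, z.2) : Par E)) z :=
    contDiffAt_fst.prodMk (contDiffAt_const.prodMk contDiffAt_snd)
  exact (contDiffAt_flow h (t0 := z.1) (t1 := 0) (x := z.2) hz
    (by simpa using h.hR)).comp z h2

theorem contDiffAt_flow0 (h : Good w R K) {z : ℝ × E} (hz : |z.1| < R) :
    ContDiffAt ℝ (⊤ : ℕ∞) (fun z : ℝ × E => flow w 0 z.1 z.2) z := by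
  have h2 : ContDiffAt ℝ (⊤ : ℕ∞) (fun z : ℝ × E => ((0, z.1, z.2) : Par E)) z :=
    contDiffAt_const.prodMk (contDiffAt_fst.prodMk contDiffAt_snd)
  exact (contDiffAt_flow h (t0 := 0) (t1 := z.1) (x := z.2)
    (by simpa using h.hR) hz).comp z h2

theorem contDiffOn_back (h : Good w R K) :
    ContDiffOn ℝ (⊤ : ℕ∞) (back w) {z | |z.1| < R} :=
  fun _ hz => (contDiffAt_back h hz).contDiffWithinAt

theorem differentiableAt_back (h : Good w R K) {z : ℝ × E} (hz : |z.1| < R) :
    DifferentiableAt ℝ (back w) z := (contDiffAt_back h hz).differentiableAt (by simp)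

/-- transport equation -/
theorem back_transport (h : Good w R K) {z : ℝ × E} (hz : |z.1| < R) :
    fderiv ℝ (back w) z (1, w z) = 0 := by
  obtain ⟨t, x⟩ := z
  have hz' : |t| < R := hz
  have h1 : HasDerivAt (fun s : ℝ => (s, flow w t s x)) (1, w (t, flow w t t x)) t :=
    (hasDerivAt_id t).prodMk (hasDerivAt_flow h x hz' hz')
  rw [flow_self h x hz'] at h1
  have h2 : HasFDerivAt (back w) (fderiv ℝ (back w) (t, x)) (t, flow w t t x) := by
    rw [flow_self h x hz']
    exact (differentiableAt_back h hz).hasFDerivAt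
  have h3 : HasDerivAt (fun s : ℝ => back w (s, flow w t s x))
      (fderiv ℝ (back w) (t, x) (1, w (t, x))) t :=
    HasFDerivAt.comp_hasDerivAt (f := fun s : ℝ => (s, flow w t s x)) t h2 h1
  have h4 : (fun s : ℝ => back w (s, flow w t s x)) =ᶠ[𝓝 t] fun _ => back w (t, x) := by
    have : ∀ᶠ s in 𝓝 t, |s| < R := (isOpen_lt continuous_abs continuous_const).mem_nhds hz'
    filter_upwards [this] with s hs
    exact back_along h hz' hs x
  have h5 : HasDerivAt (fun s : ℝ => back w (s, flow w t s x)) 0 t :=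
    (hasDerivAt_const t (back w (t, x))).congr_of_eventuallyEq h4
  exact h3.unique h5

/-- representation of solutions of the transport equation -/
theorem transport_unique (h : Good w R K) {G : Type*} [NormedAddCommGroup G] [NormedSpace ℝ G]
    {ρ : ℝ × E → G} (hρ : ∀ z : ℝ × E, |z.1| < R → DifferentiableAt ℝ ρ z)
    (htr : ∀ z : ℝ × E, |z.1| < R → fderiv ℝ ρ z (1, w z) = 0) {z : ℝ × E} (hz : |z.1| < R) :
    ρ z = ρ (0, back w z) := by
  obtain ⟨t, x⟩ := z
  have hz' : |t| < R := hz
  have hR : |(0 : ℝ)| < R := by simpa using h.hR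
  have hd : ∀ s, |s| < R → HasDerivAt (fun s : ℝ => ρ (s, flow w t s x)) 0 s := by
    intro s hs
    have h1 : HasDerivAt (fun s : ℝ => (s, flow w t s x)) (1, w (s, flow w t s x)) s :=
      (hasDerivAt_id s).prodMk (hasDerivAt_flow h x hz' hs)
    have h2 := (hρ (s, flow w t s x) hs).hasFDerivAt
    have h3 := HasFDerivAt.comp_hasDerivAt (f := fun s : ℝ => (s, flow w t s x)) s h2 h1
    rw [htr _ hs] at h3
    exact h3
  have hconst : ∀ s ∈ Ioo (-R) R, ρ (s, flow w t s x) = ρ (t, flow w t t x) := by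
    intro s hs
    have hconv : Convex ℝ (Ioo (-R) R) := convex_Ioo _ _
    have hdiff : DifferentiableOn ℝ (fun s : ℝ => ρ (s, flow w t s x)) (Ioo (-R) R) :=
      fun s hs => (hd s (abs_lt.2 hs)).differentiableAt.differentiableWithinAt
    have h0 : (Ioo (-R) R).EqOn (deriv (fun s : ℝ => ρ (s, flow w t s x))) 0 :=
      fun s hs => (hd s (abs_lt.2 hs)).deriv
    exact isOpen_Ioo.is_const_of_deriv_eq_zero hconv.isPreconnected hdiff h0 hs (abs_lt.1 hz')
  have := hconst 0 (abs_lt.1 hR)
  rw [flow_self h x hz'] at this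
  exact this.symm

/-- a transported initial datum solves the transport equation -/
theorem transport_comp (h : Good w R K) {G : Type*} [NormedAddCommGroup G] [NormedSpace ℝ G]
    {ρ₀ : E → G} (hρ : Differentiable ℝ ρ₀) {z : ℝ × E} (hz : |z.1| < R) :
    fderiv ℝ (fun z => ρ₀ (back w z)) z (1, w z) = 0 := by
  have h1 := (hρ (back w z)).hasFDerivAt.comp z (differentiableAt_back h hz).hasFDerivAt
  have h2 : fderiv ℝ (fun z => ρ₀ (back w z)) z = _ := h1.fderiv
  rw [h2, ContinuousLinearMap.comp_apply, back_transport h hz, map_zero]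

/-- spatial derivative of the back-to-labels map -/
theorem hasFDerivAt_back_space (h : Good w R K) {t : ℝ} (ht : |t| < R) (x : E) :
    HasFDerivAt (fun y => back w (t, y))
      (fderiv ℝ (back w) (t, x) ∘L .inr ℝ ℝ E) x := by
  exact (differentiableAt_back h (z := (t, x)) ht).hasFDerivAt.comp x
    (hasFDerivAt_prodMk_right t x)

/-- the spatial derivative of the back-to-labels map is invertible -/
theorem back_space_inv (h : Good w R K) {t : ℝ} (ht : |t| < R) (x : E) :
    ∃ A : E →L[ℝ] E,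
      (A ∘L (fderiv ℝ (back w) (t, x) ∘L .inr ℝ ℝ E) = ContinuousLinearMap.id ℝ E) ∧
      ((fderiv ℝ (back w) (t, x) ∘L .inr ℝ ℝ E) ∘L A = ContinuousLinearMap.id ℝ E) := by
  have hf : HasFDerivAt (fun y => flow w 0 t y)
      (fderiv ℝ (fun z : ℝ × E => flow w 0 z.1 z.2) (t, back w (t, x)) ∘L .inr ℝ ℝ E)
      (back w (t, x)) := by
    exact ((contDiffAt_flow0 h (z := (t, back w (t, x))) ht).differentiableAt
      (by simp)).hasFDerivAt.comp _ (hasFDerivAt_prodMk_right t _)
  refine ⟨fderiv ℝ (fun z : ℝ × E => flow w 0 z.1 z.2) (t, back w (t, x)) ∘L .inr ℝ ℝ E,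
    ?_, ?_⟩
  · have h1 := (hf.comp x (hasFDerivAt_back_space h ht x)).congr_of_eventuallyEq (f₁ := id)
      (Eventually.of_forall fun y => (flow_back h ht y).symm)
    exact h1.unique (hasFDerivAt_id x)
  · have hb : HasFDerivAt (fun y => back w (t, y))
        (fderiv ℝ (back w) (t, x) ∘L .inr ℝ ℝ E) (flow w 0 t (back w (t, x))) := by
      rw [flow_back h ht x]
      exact hasFDerivAt_back_space h ht x
    have h1 := (hb.comp (back w (t, x)) hf).congr_of_eventuallyEq (f₁ := id)
      (Eventually.of_forall fun y => (back_flow h ht y).symm)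
    exact h1.unique (hasFDerivAt_id _)

end basic

end Pool.Agent.H33.Flow
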