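import Mathlib

set_option autoImplicit false

namespace Pool.Agent.H33

open Finset

section LYM

variable {σ : Type*} [Fintype σ] [DecidableEq σ]

omit [Fintype σ] [DecidableEq σ] in
/-- degree of an exponent vector -/
lemma degree_add_single (a : σ →₀ ℕ) (i : σ) :
    (a + Finsupp.single i 1).degree = a.degree + 1 := by
  simp

/-- LYM type inequality for lower sets of exponent vectors. -/
lemma card_maximal_le (S : Finset (σ →₀ ℕ))
    (hS : ∀ a ∈ S, ∀ i, a i ≠ 0 → a - Finsupp.single i 1 ∈ S)
    (he : 2 ≤ Fintype.card σ) :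
    (((S.filter (fun a => ∀ i, a + Finsupp.single i 1 ∉ S)).card : ℕ) : ℝ) ≤
      ∑ a ∈ S, ((Fintype.card σ : ℝ) - 1) / ((a.degree : ℝ) + (Fintype.card σ : ℝ) - 1) := by
  classical
  set e : ℝ := (Fintype.card σ : ℝ) with he'
  have he2 : (2 : ℝ) ≤ e := by rw [he']; exact_mod_cast he
  set N := S.filter (fun a => ¬ ∀ i, a + Finsupp.single i 1 ∉ S) with hN
  have hsplit : ((S.filter (fun a => ∀ i, a + Finsupp.single i 1 ∉ S)).card : ℝ)
      = (S.card : ℝ) - (N.card : ℝ) := by
    have := Finset.card_filter_add_card_filter_not (s := S) (fun a => ∀ i, a + Finsupp.single i 1 ∉ S)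
    have h2 : ((S.filter (fun a => ∀ i, a + Finsupp.single i 1 ∉ S)).card : ℝ) + (N.card : ℝ)
      = (S.card : ℝ) := by exact_mod_cast this
    linarith
  rw [hsplit]
  -- key inequality
  have key : ∑ a ∈ S, (a.degree : ℝ) / ((a.degree : ℝ) + e - 1) ≤ (N.card : ℝ) := by
    have h1 : ∀ a ∈ S, (a.degree : ℝ) / ((a.degree : ℝ) + e - 1)
        = ∑ i : σ, (a i : ℝ) / ((a.degree : ℝ) + e - 1) := by
      intro a _
      rw [← Finset.sum_div]
      congr 1
      rw [Finsupp.degree_eq_sum]
      push_cast
      rfl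
    rw [Finset.sum_congr rfl h1]
    have h2 : ∑ a ∈ S, ∑ i : σ, (a i : ℝ) / ((a.degree : ℝ) + e - 1)
        = ∑ p ∈ (S ×ˢ (Finset.univ : Finset σ)).filter (fun p => p.1 p.2 ≠ 0),
            (p.1 p.2 : ℝ) / ((p.1.degree : ℝ) + e - 1) := by
      rw [← Finset.sum_product']
      symm
      apply Finset.sum_subset (Finset.filter_subset _ _)
      intro p hp hp2
      simp only [Finset.mem_filter, not_and, not_not] at hp2
      rw [hp2 hp]
      simp
    rw [h2]
    have h3 : ∑ p ∈ (S ×ˢ (Finset.univ : Finset σ)).filter (fun p => p.1 p.2 ≠ 0),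
            (p.1 p.2 : ℝ) / ((p.1.degree : ℝ) + e - 1)
        = ∑ q ∈ (N ×ˢ (Finset.univ : Finset σ)).filter (fun q => q.1 + Finsupp.single q.2 1 ∈ S),
            ((q.1 q.2 : ℝ) + 1) / ((q.1.degree : ℝ) + e) := by
      apply Finset.sum_nbij' (fun p => (p.1 - Finsupp.single p.2 1, p.2))
        (fun q => (q.1 + Finsupp.single q.2 1, q.2))
      · intro p hp
        simp only [Finset.mem_filter, Finset.mem_product, Finset.mem_univ, and_true] at hp ⊢
        have hle : Finsupp.single p.2 1 ≤ p.1 := by
          rw [Finsupp.single_le_iff]; omega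
        have hadd : p.1 - Finsupp.single p.2 1 + Finsupp.single p.2 1 = p.1 :=
          tsub_add_cancel_of_le hle
        refine ⟨?_, ?_⟩
        · rw [hN, Finset.mem_filter]
          refine ⟨hS _ hp.1 _ hp.2, ?_⟩
          intro hcon
          apply hcon p.2
          rw [hadd]; exact hp.1
        · rw [hadd]; exact hp.1
      · intro q hq
        simp only [Finset.mem_filter, Finset.mem_product, Finset.mem_univ, and_true] at hq ⊢
        refine ⟨hq.2, ?_⟩
        simp
      · intro p hp
        simp only [Finset.mem_filter, Finset.mem_product, Finset.mem_univ, and_true] at hp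
        have hle : Finsupp.single p.2 1 ≤ p.1 := by
          rw [Finsupp.single_le_iff]; omega
        ext1
        · exact tsub_add_cancel_of_le hle
        · rfl
      · intro q hq
        ext1
        · simp
        · rfl
      · intro p hp
        simp only [Finset.mem_filter, Finset.mem_product, Finset.mem_univ, and_true] at hp
        have hle : Finsupp.single p.2 1 ≤ p.1 := by
          rw [Finsupp.single_le_iff]; omega
        have hadd : p.1 - Finsupp.single p.2 1 + Finsupp.single p.2 1 = p.1 :=
          tsub_add_cancel_of_le hle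
        have hdeg : p.1.degree = (p.1 - Finsupp.single p.2 1).degree + 1 := by
          conv_lhs => rw [← hadd]
          rw [degree_add_single]
        have hv : (p.1 p.2 : ℝ) = (((p.1 - Finsupp.single p.2 1 : σ →₀ ℕ) p.2 : ℕ) : ℝ) + 1 := by
          have h0 : p.1 p.2 = ((p.1 - Finsupp.single p.2 1 : σ →₀ ℕ) p.2) + 1 := by
            rw [Finsupp.tsub_apply, Finsupp.single_eq_same]
            have := hp.2
            omega
          exact_mod_cast h0
        have hd : (p.1.degree : ℝ) = (((p.1 - Finsupp.single p.2 1 : σ →₀ ℕ).degree : ℕ) : ℝ) + 1 := by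
          exact_mod_cast hdeg
        show (p.1 p.2 : ℝ) / ((p.1.degree : ℝ) + e - 1) =
          ((((p.1 - Finsupp.single p.2 1 : σ →₀ ℕ) p.2 : ℕ) : ℝ) + 1) /
            ((((p.1 - Finsupp.single p.2 1 : σ →₀ ℕ).degree : ℕ) : ℝ) + e)
        rw [hv, hd]
        congr 1
        ring
    rw [h3]
    calc ∑ q ∈ (N ×ˢ (Finset.univ : Finset σ)).filter (fun q => q.1 + Finsupp.single q.2 1 ∈ S),
            ((q.1 q.2 : ℝ) + 1) / ((q.1.degree : ℝ) + e)
        ≤ ∑ q ∈ (N ×ˢ (Finset.univ : Finset σ)), ((q.1 q.2 : ℝ) + 1) / ((q.1.degree : ℝ) + e) := by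
          apply Finset.sum_le_sum_of_subset_of_nonneg (Finset.filter_subset _ _)
          intro q _ _
          positivity
      _ = ∑ b ∈ N, ∑ i : σ, ((b i : ℝ) + 1) / ((b.degree : ℝ) + e) := by
          rw [Finset.sum_product]
      _ = ∑ b ∈ N, (1 : ℝ) := by
          apply Finset.sum_congr rfl
          intro b _
          rw [← Finset.sum_div, Finset.sum_add_distrib]
          have : ∑ i : σ, (b i : ℝ) = (b.degree : ℝ) := by
            rw [Finsupp.degree_eq_sum]; push_cast; rfl
          rw [this]
          simp only [Finset.sum_const, Finset.card_univ, nsmul_eq_mul, mul_one]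
          rw [← he']
          apply div_self
          positivity
      _ = (N.card : ℝ) := by simp
  have hfin : ∑ a ∈ S, (e - 1) / ((a.degree : ℝ) + e - 1)
      = (S.card : ℝ) - ∑ a ∈ S, (a.degree : ℝ) / ((a.degree : ℝ) + e - 1) := by
    have : (S.card : ℝ) = ∑ a ∈ S, (1 : ℝ) := by simp
    rw [this, ← Finset.sum_sub_distrib]
    apply Finset.sum_congr rfl
    intro a _
    have hpos : (0 : ℝ) < (a.degree : ℝ) + e - 1 := by
      have : (0 : ℝ) ≤ (a.degree : ℝ) := by positivity
      linarith
    field_simp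
    ring
  rw [hfin]
  linarith

end LYM

end Pool.Agent.H33
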