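import Mathlib

set_option autoImplicit false

namespace Pool.Agent.H33.LocDer

open NormedSpace

/-- derivation of a bilinear product -/
def IsDer {𝕜 : Type*} [Field 𝕜] {V : Type*} [AddCommGroup V] [Module 𝕜 V]
    (μ : V →ₗ[𝕜] V →ₗ[𝕜] V) (D : V →ₗ[𝕜] V) : Prop :=
  ∀ x y, D (μ x y) = μ (D x) y + μ x (D y)

section normed

variable {𝕜 : Type*} [RCLike 𝕜] {V : Type*} [NormedAddCommGroup V] [NormedSpace 𝕜 V]
  [FiniteDimensional 𝕜 V]

/-- The exponential of a derivation is an automorphism. -/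
lemma exp_mul (μ : V →ₗ[𝕜] V →ₗ[𝕜] V) (a : V →L[𝕜] V) (ha : IsDer μ (a : V →ₗ[𝕜] V)) (t : 𝕜)
    (x y : V) :
    exp (t • a) (μ x y) = μ (exp (t • a) x) (exp (t • a) y) := by
  have : CompleteSpace V := FiniteDimensional.complete 𝕜 V
  let +nondep : NormedAlgebra ℚ (V →L[𝕜] V) := NormedAlgebra.restrictScalars ℚ 𝕜 (V →L[𝕜] V)
  -- bilinear continuous version of the product
  let μ' : V →L[𝕜] V →L[𝕜] V :=
    LinearMap.toContinuousLinearMap ((LinearMap.toContinuousLinearMap (𝕜 := 𝕜) (E := V) (F' := V)).toLinearMap ∘ₗ μ)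
  have hμ' : ∀ x y, μ' x y = μ x y := fun x y => rfl
  have hE : ∀ (t : 𝕜) (z : V), HasDerivAt (fun s : 𝕜 => exp (s • a) z) (a (exp (t • a) z)) t := by
    intro t z
    have h1 := hasDerivAt_exp_smul_const' (𝕂 := 𝕜) a t
    have h2 := h1.clm_apply (hasDerivAt_const t z)
    simpa using h2
  have hEn : ∀ (t : 𝕜), HasDerivAt (fun s : 𝕜 => exp ((-s) • a)) (-(exp ((-t) • a) * a)) t := by
    intro t
    have h1 := hasDerivAt_exp_smul_const (𝕂 := 𝕜) a (-t)
    have h2 := h1.scomp t (hasDerivAt_neg t)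
    rw [neg_one_smul] at h2
    exact h2
  let f : 𝕜 → V := fun s => exp ((-s) • a) (μ' (exp (s • a) x) (exp (s • a) y))
  have hf : ∀ t, HasDerivAt f 0 t := by
    intro t
    have h1 : HasDerivAt (fun s : 𝕜 => μ' (exp (s • a) x) (exp (s • a) y))
        (μ' (a (exp (t • a) x)) (exp (t • a) y) + μ' (exp (t • a) x) (a (exp (t • a) y))) t := by
      have h2 : HasDerivAt (fun s : 𝕜 => μ' (exp (s • a) x)) (μ' (a (exp (t • a) x))) t := by
        exact (μ'.hasFDerivAt.comp_hasDerivAt t (hE t x))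
      exact h2.clm_apply (hE t y)
    have h3 := (hEn t).clm_apply h1
    have h4 : (-(exp ((-t) • a) * a)) (μ' (exp (t • a) x) (exp (t • a) y)) +
        exp ((-t) • a) (μ' (a (exp (t • a) x)) (exp (t • a) y) + μ' (exp (t • a) x) (a (exp (t • a) y)))
        = 0 := by
      have h5 : a (μ' (exp (t • a) x) (exp (t • a) y))
        = μ' (a (exp (t • a) x)) (exp (t • a) y) + μ' (exp (t • a) x) (a (exp (t • a) y)) :=
        ha _ _
      rw [← h5]
      simp
    rw [h4] at h3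
    exact h3
  have hconst := is_const_of_deriv_eq_zero (fun t => (hf t).differentiableAt) (fun t => (hf t).deriv) t 0
  have h0 : f 0 = μ' x y := by
    simp only [f, neg_zero, zero_smul, exp_zero]
    rfl
  rw [h0] at hconst
  have h6 : exp (t • a) (f t) = μ' (exp (t • a) x) (exp (t • a) y) := by
    have h7 : exp (t • a) * exp ((-t) • a) = (1 : V →L[𝕜] V) := by
      rw [← exp_add_of_commute]
      · rw [neg_smul, add_neg_cancel, exp_zero]
      · rw [neg_smul]; exact (Commute.refl (t • a)).neg_right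
    have h8 := congrArg (fun T : V →L[𝕜] V => T (μ' (exp (t • a) x) (exp (t • a) y))) h7
    exact h8
  rw [hconst] at h6
  exact h6

/-- main step: the commutator of a local derivation and a derivation is a local derivation -/
lemma bracket_mem (μ : V →ₗ[𝕜] V →ₗ[𝕜] V) (T a : V →ₗ[𝕜] V) (ha : IsDer μ a)
    (hT : ∀ x, ∃ D, IsDer μ D ∧ T x = D x) (v : V) :
    ∃ D, IsDer μ D ∧ T (a v) - a (T v) = D v := by
  have : CompleteSpace V := FiniteDimensional.complete 𝕜 V
  let +nondep : NormedAlgebra ℚ (V →L[𝕜] V) := NormedAlgebra.restrictScalars ℚ 𝕜 (V →L[𝕜] V)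
  let a' : V →L[𝕜] V := LinearMap.toContinuousLinearMap a
  let T' : V →L[𝕜] V := LinearMap.toContinuousLinearMap T
  have ha' : IsDer μ (a' : V →ₗ[𝕜] V) := ha
  -- the subspace Der v
  let W : Submodule 𝕜 V :=
    { carrier := {w | ∃ D, IsDer μ D ∧ w = D v}
      add_mem' := by
        rintro w w' ⟨D, hD, rfl⟩ ⟨D', hD', rfl⟩
        refine ⟨D + D', ?_, rfl⟩
        intro x y
        simp only [LinearMap.add_apply, map_add]
        rw [hD x y, hD' x y]
        abel
      zero_mem' := ⟨0, by intro x y; simp, rfl⟩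
      smul_mem' := by
        rintro c w ⟨D, hD, rfl⟩
        refine ⟨c • D, ?_, rfl⟩
        intro x y
        simp only [LinearMap.smul_apply, map_smul]
        rw [hD x y]
        simp }
  have hWclosed : IsClosed (W : Set V) := W.closed_of_finiteDimensional
  have hinv : ∀ t : 𝕜, exp ((-t) • a') * exp (t • a') = (1 : V →L[𝕜] V) := by
    intro t
    rw [← exp_add_of_commute]
    · rw [neg_smul, neg_add_cancel, exp_zero]
    · rw [neg_smul]; exact (Commute.refl (t • a')).neg_left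
  have hinv' : ∀ t : 𝕜, exp (t • a') * exp ((-t) • a') = (1 : V →L[𝕜] V) := by
    intro t
    have := hinv (-t)
    simpa using this
  let f : 𝕜 → V := fun t => exp ((-t) • a') (T' (exp (t • a') v))
  have hfW : ∀ t, f t ∈ W := by
    intro t
    obtain ⟨D, hD, hDv⟩ := hT (exp (t • a') v)
    refine ⟨(exp ((-t) • a') : V →L[𝕜] V).toLinearMap ∘ₗ D ∘ₗ (exp (t • a') : V →L[𝕜] V).toLinearMap, ?_, ?_⟩
    · intro x y
      simp only [LinearMap.comp_apply, ContinuousLinearMap.coe_coe]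
      rw [exp_mul μ a' ha', hD, map_add, exp_mul μ a' ha', exp_mul μ a' ha']
      have h1 : ∀ z, exp ((-t) • a') (exp (t • a') z) = z := by
        intro z
        exact congrArg (fun T : V →L[𝕜] V => T z) (hinv t)
      rw [h1, h1]
    · show exp ((-t) • a') (T (exp (t • a') v)) = _
      rw [hDv]
      rfl
  have hE : ∀ (t : 𝕜) (z : V), HasDerivAt (fun s : 𝕜 => exp (s • a') z) (a' (exp (t • a') z)) t := by
    intro t z
    have h1 := hasDerivAt_exp_smul_const' (𝕂 := 𝕜) a' t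
    have h2 := h1.clm_apply (hasDerivAt_const t z)
    simpa using h2
  have hEn : ∀ (t : 𝕜), HasDerivAt (fun s : 𝕜 => exp ((-s) • a')) (-(exp ((-t) • a') * a')) t := by
    intro t
    have h1 := hasDerivAt_exp_smul_const (𝕂 := 𝕜) a' (-t)
    have h2 := h1.scomp t (hasDerivAt_neg t)
    rw [neg_one_smul] at h2
    exact h2
  have hderiv : HasDerivAt f (T (a v) - a (T v)) 0 := by
    have h1 : HasDerivAt (fun s : 𝕜 => T' (exp (s • a') v)) (T' (a' (exp ((0:𝕜) • a') v))) 0 :=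
      T'.hasFDerivAt.comp_hasDerivAt 0 (hE 0 v)
    have h3 := (hEn 0).clm_apply h1
    have h4 : (-(exp ((-(0:𝕜)) • a') * a')) (T' (exp ((0:𝕜) • a') v)) +
        exp ((-(0:𝕜)) • a') (T' (a' (exp ((0:𝕜) • a') v))) = T (a v) - a (T v) := by
      simp only [neg_zero, zero_smul, exp_zero, one_mul]
      show -(a (T v)) + T (a v) = _
      abel
    rw [h4] at h3
    exact h3
  have hlim := hderiv.tendsto_slope
  have hmem : T (a v) - a (T v) ∈ (W : Set V) := by
    apply hWclosed.mem_of_tendsto hlim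
    filter_upwards with t
    rw [slope_def_module]
    exact W.smul_mem _ (W.sub_mem (hfW _) (hfW _))
  exact hmem

lemma commutator (μ : V →ₗ[𝕜] V →ₗ[𝕜] V) (S T : V →ₗ[𝕜] V)
    (hS : ∀ x, ∃ D, IsDer μ D ∧ S x = D x)
    (hT : ∀ x, ∃ D, IsDer μ D ∧ T x = D x) (v : V) :
    ∃ D, IsDer μ D ∧ S (T v) - T (S v) = D v := by
  obtain ⟨a, ha, hav⟩ := hS v
  obtain ⟨b, hb, hbv⟩ := hT v
  obtain ⟨D₁, hD₁, h₁⟩ := bracket_mem μ S b hb hS v
  obtain ⟨D₂, hD₂, h₂⟩ := bracket_mem μ T a ha hT v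
  refine ⟨D₁ - D₂ + (b ∘ₗ a - a ∘ₗ b), ?_, ?_⟩
  · intro x y
    simp only [LinearMap.add_apply, LinearMap.sub_apply, LinearMap.comp_apply, map_add, map_sub]
    rw [hD₁ x y, hD₂ x y, ha x y, hb x y]
    simp only [map_add]
    rw [ha, ha, hb, hb]
    abel
  · simp only [LinearMap.add_apply, LinearMap.sub_apply, LinearMap.comp_apply]
    rw [← h₁, ← h₂, hav, hbv]
    abel

end normed

lemma commutator' {𝕜 : Type*} [RCLike 𝕜] {V : Type*} [AddCommGroup V] [Module 𝕜 V]
    [FiniteDimensional 𝕜 V] (μ : V →ₗ[𝕜] V →ₗ[𝕜] V) (S T : V →ₗ[𝕜] V)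
    (hS : ∀ x, ∃ D, IsDer μ D ∧ S x = D x)
    (hT : ∀ x, ∃ D, IsDer μ D ∧ T x = D x) (v : V) :
    ∃ D, IsDer μ D ∧ S (T v) - T (S v) = D v := by
  let e : V ≃ₗ[𝕜] (Fin (Module.finrank 𝕜 V) → 𝕜) := (Module.finBasis 𝕜 V).equivFun
  let : NormedAddCommGroup V :=
    NormedAddCommGroup.induced V (Fin (Module.finrank 𝕜 V) → 𝕜) e e.injective
  let : NormedSpace 𝕜 V := NormedSpace.induced 𝕜 V (Fin (Module.finrank 𝕜 V) → 𝕜) e
  exact commutator μ S T hS hT v

end Pool.Agent.H33.LocDer
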