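import Mathlib
import Pool.Agent.H37.MHD.Defs2
import Pool.Agent.H33.FlowODE

/-! # MP_59296a_an, module M1: existence of a smooth back-to-labels map -/

open MeasureTheory Set Filter Topology
open scoped ContDiff unitInterval
open H36.MHD

noncomputable section

namespace H37.MHD

/-- the space derivatives assemble to the derivative in a space direction -/
theorem sum_dx_mul (g : X → ℝ) (z : X) (v : V3) :
    ∑ k, v k * dx k g z = fderiv ℝ g z (0, v) := by
  have e : ((0 : ℝ), v) = ∑ k, v k • ((0 : ℝ), (Pi.single k (1 : ℝ) : V3)) := by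
    rw [Prod.ext_iff]
    constructor
    · simp [Prod.fst_sum]
    · rw [Prod.snd_sum]
      ext j
      simp [Finset.sum_apply, Pi.single_apply]
  rw [e, map_sum]
  refine Finset.sum_congr rfl fun k _ => ?_
  rw [map_smul, smul_eq_mul]
  rfl

theorem flow_exists (T K : ℝ) (hT : 0 < T) (hK : 0 ≤ K) (hTK : K * (40 * T) ≤ 1)
    (U : Fin 3 → X → ℝ) (hU : ∀ k, ContDiff ℝ ∞ (U k))
    (hL : ∀ t, |t| ≤ 2 * T → ∀ x y, ‖vec U (t, x) - vec U (t, y)‖ ≤ K * ‖x - y‖) :
    ∃ Y : Fin 3 → X → ℝ, (∀ k, ContDiff ℝ ∞ (Y k)) ∧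
      (∀ t x, |t| ≤ 3 / 2 * T → BackPath (vec U) t x (vec Y (t, x))) ∧
      (∀ j z, |z.1| < 3 / 2 * T → dt (Y j) z + ∑ k, U k z * dx k (Y j) z = 0) := by
  have hvU : ContDiff ℝ ∞ (vec U) := contDiff_pi.2 hU
  let w : C(ℝ × V3, V3) := ⟨vec U, hvU.continuous⟩
  have hw : Pool.Agent.H33.Flow.Good w (2 * T) K :=
    { smooth := hvU
      hR := by positivity
      hK := hK
      small := by nlinarith
      lip := fun t ht x y => hL t ht.le x y }
  let χ : ContDiffBump (0 : ℝ) := ⟨3 / 2 * T, 7 / 4 * T, by positivity, by linarith⟩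
  have hχ1 : ∀ t : ℝ, |t| ≤ 3 / 2 * T → χ t = 1 := fun t ht =>
    χ.one_of_mem_closedBall (by simpa [Metric.mem_closedBall, Real.dist_eq] using ht)
  have hχ0 : ∀ t : ℝ, 7 / 4 * T ≤ |t| → χ t = 0 := fun t ht =>
    χ.zero_of_le_dist (by simpa [Real.dist_eq] using ht)
  let Y : Fin 3 → X → ℝ := fun k z => χ z.1 * (Pool.Agent.H33.Flow.back w z k - z.2 k) + z.2 k
  have hYb : ∀ z : X, |z.1| ≤ 3 / 2 * T → ∀ k, Y k z = Pool.Agent.H33.Flow.back w z k := by
    intro z hz k
    simp only [Y]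
    rw [hχ1 _ hz]
    ring
  refine ⟨Y, ?_, ?_, ?_⟩
  · intro k
    rw [contDiff_iff_contDiffAt]
    intro z
    have hsnd : ContDiffAt ℝ ∞ (fun z : X => z.2 k) z :=
      ((contDiff_apply ℝ ℝ k).comp contDiff_snd).contDiffAt
    by_cases hz : |z.1| < 2 * T
    · have h1 : ContDiffAt ℝ ∞ (fun z : X => Pool.Agent.H33.Flow.back w z k) z :=
        (contDiff_apply ℝ ℝ k).contDiffAt.comp z
          (Pool.Agent.H33.Flow.contDiffAt_back hw (z := z) hz)
      have h2 : ContDiffAt ℝ ∞ (fun z : X => χ z.1) z :=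
        χ.contDiffAt.comp z contDiffAt_fst
      exact (h2.mul (h1.sub hsnd)).add hsnd
    · refine hsnd.congr_of_eventuallyEq ?_
      have h3 : ∀ᶠ y : X in 𝓝 z, 7 / 4 * T < |y.1| :=
        (isOpen_lt continuous_const (continuous_abs.comp continuous_fst)).mem_nhds
          (by
            have : 2 * T ≤ |z.1| := not_lt.1 hz
            show 7 / 4 * T < |z.1|
            linarith)
      filter_upwards [h3] with y hy
      simp only [Y]
      rw [hχ0 _ hy.le]
      ring
  · intro t x ht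
    have ht2 : |t| < 2 * T := by linarith
    have h02 : |(0 : ℝ)| < 2 * T := by simpa using hT
    have hS := Pool.Agent.H33.Flow.sol_spec hw (p := (t, 0, x)) ht2 h02
    set α := Pool.Agent.H33.Flow.sol w (t, 0, x) with hα
    refine ⟨Set.IccExtend (zero_le_one (α := ℝ)) α, ?_, ?_, ?_⟩
    · exact (α.continuous.Icc_extend').continuousOn
    · ext k
      have h1 : vec Y (t, x) k = Pool.Agent.H33.Flow.back w (t, x) k := hYb (t, x) ht k
      rw [h1, Set.IccExtend_of_mem _ _ (right_mem_Icc.2 zero_le_one)]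
      rfl
    · intro r hr
      have h2 : Pool.Agent.H33.Flow.Eqn w ((t, 0, x), α) ⟨r, hr⟩ = (0 : C(I, V3)) ⟨r, hr⟩ := by
        rw [hS]
      rw [Pool.Agent.H33.Flow.Eqn_apply, ContinuousMap.zero_apply] at h2
      rw [Set.IccExtend_of_mem _ _ hr]
      simp only at h2
      rw [sub_sub, sub_eq_zero] at h2
      rw [h2, intervalIntegral.integral_smul, zero_sub, neg_smul, ← sub_eq_add_neg]
      congr 2
      refine intervalIntegral.integral_congr fun q hq => ?_
      rw [uIcc_of_le hr.1] at hq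
      have hq1 : q ∈ Icc (0 : ℝ) 1 := ⟨hq.1, hq.2.trans hr.2⟩
      rw [Set.IccExtend_of_mem _ _ hq1, Set.IccExtend_of_mem _ _ hq1]
      simp only [Pool.Agent.H33.Flow.pathL_apply]
      show vec U _ = vec U _
      congr 1
      refine Prod.ext ?_ rfl
      simp only
      ring
  · intro j z hz
    have hz2 : |z.1| < 2 * T := by linarith
    have hev : Y j =ᶠ[𝓝 z] fun z => Pool.Agent.H33.Flow.back w z j := by
      have h3 : ∀ᶠ y : X in 𝓝 z, |y.1| < 3 / 2 * T :=
        (isOpen_lt (continuous_abs.comp continuous_fst) continuous_const).mem_nhds hz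
      filter_upwards [h3] with y hy
      exact hYb y hy.le j
    have hd := Pool.Agent.H33.Flow.differentiableAt_back hw (z := z) hz2
    have hfd : fderiv ℝ (Y j) z = (ContinuousLinearMap.proj (R := ℝ) (φ := fun _ => ℝ) j) ∘L
        fderiv ℝ (Pool.Agent.H33.Flow.back w) z := by
      rw [hev.fderiv_eq]
      exact ((ContinuousLinearMap.proj (R := ℝ) (φ := fun _ : Fin 3 => ℝ) j).hasFDerivAt.comp z
        hd.hasFDerivAt).fderiv
    have hsum : ∑ k, U k z * dx k (Y j) z = fderiv ℝ (Y j) z (0, vec U z) :=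
      sum_dx_mul (Y j) z (vec U z)
    rw [hsum]
    unfold dt
    rw [← map_add, hfd]
    have e : ((1 : ℝ), (0 : V3)) + (0, vec U z) = (1, w z) := by
      rw [Prod.mk_add_mk, add_zero, zero_add]
      rfl
    rw [e, ContinuousLinearMap.comp_apply, Pool.Agent.H33.Flow.back_transport hw hz2, map_zero]

end H37.MHD
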