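import Mathlib
import Pool.Agent.H37.MHD.Defs2
import Pool.Agent.H33.MHD_Flow

/-! # MP_59296a_an, module M3: stability of paths, displacement -/

open MeasureTheory Set Filter Topology
open scoped ContDiff
open H36.MHD

noncomputable section

namespace H37.MHD

variable {B : Bg}

theorem time_arg_le {t q : ℝ} (hq : q ∈ Icc (0 : ℝ) 1) : |t * (1 - q)| ≤ |t| := by
  rw [abs_mul, abs_of_nonneg (sub_nonneg.2 hq.2)]
  calc |t| * (1 - q) ≤ |t| * 1 :=
        mul_le_mul_of_nonneg_left (by linarith [hq.1]) (abs_nonneg t)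
    _ = |t| := mul_one _

theorem backPath_integrand_cont {U : X → V3} (hU : Continuous U) (t : ℝ) {β : ℝ → V3}
    (hβ : ContinuousOn β (Icc 0 1)) :
    ContinuousOn (fun q => t • U (t * (1 - q), β q)) (Icc 0 1) := by
  refine ContinuousOn.const_smul ?_ t
  refine hU.comp_continuousOn ?_
  exact ContinuousOn.prodMk (by fun_prop) hβ

theorem backPath_zero (U : X → V3) (x y : V3) (h : BackPath U 0 x y) : y = x := by
  obtain ⟨β, -, h1, h2⟩ := h
  have := h2 1 (right_mem_Icc.2 zero_le_one)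
  rw [h1] at this
  simpa using this

theorem path_stab (T K δ : ℝ) (hT : 0 < T) (hK : 0 ≤ K) (hTK : K * (40 * T) ≤ 1) (hδ : 0 ≤ δ)
    (U U' : X → V3) (hUc : Continuous U) (hUc' : Continuous U')
    (t : ℝ) (ht : |t| ≤ 2 * T)
    (hL : ∀ s, |s| ≤ |t| → ∀ x y, ‖U (s, x) - U (s, y)‖ ≤ K * ‖x - y‖)
    (hd : ∀ s, |s| ≤ |t| → ∀ x, ‖U (s, x) - U' (s, x)‖ ≤ δ)
    (x x' y y' : V3) (h : BackPath U t x y) (h' : BackPath U' t x' y') :
    ‖(y - y') - (x - x')‖ ≤ 1 / 19 * ‖x - x'‖ + 20 / 19 * |t| * δ := by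
  obtain ⟨β, hβ, hβ1, hβe⟩ := h
  obtain ⟨β', hβ', hβ1', hβe'⟩ := h'
  have hc : ContinuousOn (fun r => ‖β r - β' r‖) (Icc 0 1) := (hβ.sub hβ').norm
  obtain ⟨r0, hr0, hmax⟩ := isCompact_Icc.exists_isMaxOn (nonempty_Icc.2 zero_le_one) hc
  set m := ‖β r0 - β' r0‖ with hm
  have hm0 : 0 ≤ m := norm_nonneg _
  have hmax' : ∀ r ∈ Icc (0 : ℝ) 1, ‖β r - β' r‖ ≤ m := fun r hr => hmax hr
  have hstep : ∀ r ∈ Icc (0 : ℝ) 1,
      ‖(β r - β' r) - (x - x')‖ ≤ |t| * (K * m + δ) := by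
    intro r hr
    have hsub : uIcc 0 r ⊆ Icc (0 : ℝ) 1 := by
      rw [uIcc_of_le hr.1]
      exact Icc_subset_Icc le_rfl hr.2
    have hi : IntervalIntegrable (fun q => t • U (t * (1 - q), β q)) volume 0 r :=
      ((backPath_integrand_cont hUc t hβ).mono hsub).intervalIntegrable
    have hi' : IntervalIntegrable (fun q => t • U' (t * (1 - q), β' q)) volume 0 r :=
      ((backPath_integrand_cont hUc' t hβ').mono hsub).intervalIntegrable
    have e : (β r - β' r) - (x - x') =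
        - ∫ q in (0 : ℝ)..r, (t • U (t * (1 - q), β q) - t • U' (t * (1 - q), β' q)) := by
      rw [intervalIntegral.integral_sub hi hi', hβe r hr, hβe' r hr]
      abel
    rw [e, norm_neg]
    have hb : ∀ q ∈ uIoc (0 : ℝ) r,
        ‖t • U (t * (1 - q), β q) - t • U' (t * (1 - q), β' q)‖ ≤ |t| * (K * m + δ) := by
      intro q hq
      have hq1 : q ∈ Icc (0 : ℝ) 1 := hsub (uIoc_subset_uIcc hq)
      rw [← smul_sub, norm_smul, Real.norm_eq_abs]
      refine mul_le_mul_of_nonneg_left ?_ (abs_nonneg t)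
      have h1 := hL _ (time_arg_le (t := t) hq1) (β q) (β' q)
      have h2 := hd _ (time_arg_le (t := t) hq1) (β' q)
      calc ‖U (t * (1 - q), β q) - U' (t * (1 - q), β' q)‖
          = ‖(U (t * (1 - q), β q) - U (t * (1 - q), β' q)) +
            (U (t * (1 - q), β' q) - U' (t * (1 - q), β' q))‖ := by congr 1; abel
        _ ≤ K * ‖β q - β' q‖ + δ := (norm_add_le _ _).trans (add_le_add h1 h2)
        _ ≤ K * m + δ := by
          have := mul_le_mul_of_nonneg_left (hmax' q hq1) hK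
          linarith
    have h3 := intervalIntegral.norm_integral_le_of_norm_le_const hb
    rw [sub_zero, abs_of_nonneg hr.1] at h3
    refine h3.trans ?_
    have h4 : 0 ≤ |t| * (K * m + δ) := by positivity
    calc |t| * (K * m + δ) * r ≤ |t| * (K * m + δ) * 1 :=
          mul_le_mul_of_nonneg_left hr.2 h4
      _ = |t| * (K * m + δ) := mul_one _
  have hKt : |t| * K ≤ 1 / 20 := by
    have : |t| * K ≤ 2 * T * K := mul_le_mul_of_nonneg_right ht hK
    linarith
  have h1 := hstep r0 hr0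
  have h2 := hstep 1 (right_mem_Icc.2 zero_le_one)
  rw [hβ1, hβ1'] at h2
  have h3 : m ≤ ‖(β r0 - β' r0) - (x - x')‖ + ‖x - x'‖ := by
    have := norm_add_le ((β r0 - β' r0) - (x - x')) (x - x')
    rw [sub_add_cancel] at this
    exact this
  have h4 : |t| * K * m ≤ 1 / 20 * m := mul_le_mul_of_nonneg_right hKt hm0
  have e1 : |t| * (K * m + δ) = |t| * K * m + |t| * δ := by ring
  rw [e1] at h1 h2
  have e2 : 20 / 19 * |t| * δ = 20 / 19 * (|t| * δ) := by ring
  rw [e2]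
  linarith

theorem abs_le_of_le_32 {T t : ℝ} (hT : 0 < T) (ht : |t| ≤ 3 / 2 * T) : |t| ≤ 2 * T := by
  linarith

theorem int_cube (r : ℝ) : ∫ q in (0 : ℝ)..r, (1 - q) ^ 3 = 1 / 4 - (1 - r) ^ 4 / 4 := by
  have hd : ∀ q ∈ uIcc (0 : ℝ) r,
      HasDerivAt (fun q : ℝ => (-1 / 4) * (1 - q) ^ 4) ((1 - q) ^ 3) q := by
    intro q _
    have h1 : HasDerivAt (fun q : ℝ => 1 - q) (-1) q := by
      simpa using (hasDerivAt_id q).const_sub 1
    have h2 := (h1.fun_pow 4).const_mul (-1 / 4)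
    refine h2.congr_deriv ?_
    push_cast
    ring
  rw [intervalIntegral.integral_eq_sub_of_hasDerivAt hd
    ((by fun_prop : Continuous fun q : ℝ => (1 - q) ^ 3).intervalIntegrable _ _)]
  ring

theorem int_cube_le {r : ℝ} : ∫ q in (0 : ℝ)..r, (1 - q) ^ 3 ≤ 1 / 4 := by
  rw [int_cube]
  have : 0 ≤ (1 - r) ^ 4 / 4 := by positivity
  linarith

/-- displacement -/
theorem Stage.displ (st : Stage B) (i : Fin 2) (t : ℝ) (x : V3) (ht : |t| ≤ 3 / 2 * B.T) :
    ‖vec (st.Y i) (t, x) - x + (sg i * th t) • wv B x‖ ≤ 1 / 2 * th t * ‖wv B x‖ := by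
  have hT := B.hT
  have ht2 : |t| ≤ 2 * B.T := abs_le_of_le_32 hT ht
  obtain ⟨c, hc0, hc, hclose⟩ := st.close
  obtain ⟨β, hβ, hβ1, hβe⟩ := st.path i t x ht
  have hwc : Continuous (wv B) := by
    refine continuous_pi fun k => (B.w_smooth k).continuous
  have hcont : ContinuousOn (fun r => ‖wv B (β r)‖) (Icc 0 1) := (hwc.comp_continuousOn hβ).norm
  obtain ⟨r0, hr0, hmax⟩ := isCompact_Icc.exists_isMaxOn (nonempty_Icc.2 zero_le_one) hcont
  set M := ‖wv B (β r0)‖ with hM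
  have hM0 : 0 ≤ M := norm_nonneg _
  have hmax' : ∀ r ∈ Icc (0 : ℝ) 1, ‖wv B (β r)‖ ≤ M := fun r hr => hmax hr
  have hsg : |sg i| = 1 := by
    unfold sg
    split_ifs <;> simp
  have hUc : Continuous (vec (st.u i)) := continuous_pi fun k => (st.u_smooth i k).continuous
  have hct : c * |t| ≤ 1 / 2 := by
    have h1 : c * (4 * B.T) ≤ 1 := by
      have := hc.le
      unfold cmax at this
      rwa [le_div_iff₀ (by positivity)] at this
    nlinarith [abs_nonneg t]
  -- pointwise bound of the difference with the background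
  have hdiff : ∀ q ∈ Icc (0 : ℝ) 1,
      ‖t • vec (st.u i) (t * (1 - q), β q) - (t * (sg i * aa (t * (1 - q)))) • wv B (β q)‖ ≤
        (t ^ 4 / 8 * M) * (1 - q) ^ 3 := by
    intro q hq
    have h1 := hclose i (t * (1 - q), β q) ((time_arg_le hq).trans ht2)
    simp only at h1
    rw [mul_smul, ← smul_sub, norm_smul, Real.norm_eq_abs]
    have hq0 : 0 ≤ 1 - q := sub_nonneg.2 hq.2
    have hq1 : 1 - q ≤ 1 := by linarith [hq.1]
    have h2 : th (t * (1 - q)) ≤ t ^ 4 / 4 * (1 - q) ^ 3 := by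
      unfold th
      have : (1 - q) ^ 4 ≤ (1 - q) ^ 3 := pow_le_pow_of_le_one hq0 hq1 (by norm_num)
      calc (t * (1 - q)) ^ 4 / 4 = t ^ 4 / 4 * (1 - q) ^ 4 := by ring
        _ ≤ t ^ 4 / 4 * (1 - q) ^ 3 := mul_le_mul_of_nonneg_left this (by positivity)
    have h3 : 0 ≤ th (t * (1 - q)) := by unfold th; positivity
    have h4 := hmax' q hq
    calc |t| * ‖vec (st.u i) (t * (1 - q), β q) - (sg i * aa (t * (1 - q))) • wv B (β q)‖
        ≤ |t| * (c * th (t * (1 - q)) * ‖wv B (β q)‖) :=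
          mul_le_mul_of_nonneg_left h1 (abs_nonneg t)
      _ ≤ |t| * (c * (t ^ 4 / 4 * (1 - q) ^ 3) * M) := by gcongr
      _ = (c * |t|) * (t ^ 4 / 4 * (1 - q) ^ 3 * M) := by ring
      _ ≤ 1 / 2 * (t ^ 4 / 4 * (1 - q) ^ 3 * M) := by
          refine mul_le_mul_of_nonneg_right hct ?_
          positivity
      _ = (t ^ 4 / 8 * M) * (1 - q) ^ 3 := by ring
  have haa : ∀ q ∈ Icc (0 : ℝ) 1, |t * (sg i * aa (t * (1 - q)))| = t ^ 4 * (1 - q) ^ 3 := by
    intro q hq
    have hq0 : 0 ≤ 1 - q := sub_nonneg.2 hq.2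
    unfold aa
    rw [abs_mul, abs_mul, hsg, one_mul, abs_pow, abs_mul, abs_of_nonneg hq0]
    have : t ^ 4 = |t| ^ 4 := by
      rw [← abs_pow, abs_of_nonneg (by positivity)]
    rw [this]
    ring
  -- distance of the path from `x`
  have hdist : ∀ r ∈ Icc (0 : ℝ) 1, ‖β r - x‖ ≤ 9 / 32 * t ^ 4 * M := by
    intro r hr
    have hsub : uIcc 0 r ⊆ Icc (0 : ℝ) 1 := by
      rw [uIcc_of_le hr.1]
      exact Icc_subset_Icc le_rfl hr.2
    have e : β r - x = - ∫ q in (0 : ℝ)..r, t • vec (st.u i) (t * (1 - q), β q) := by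
      rw [hβe r hr]
      abel
    rw [e, norm_neg]
    have hb : ∀ᵐ q ∂(volume.restrict (Ioc (0 : ℝ) r)),
        ‖t • vec (st.u i) (t * (1 - q), β q)‖ ≤ (9 / 8 * t ^ 4 * M) * (1 - q) ^ 3 := by
      refine ae_restrict_of_forall_mem measurableSet_Ioc fun q hq => ?_
      have hq1 : q ∈ Icc (0 : ℝ) 1 := ⟨hq.1.le, hq.2.trans hr.2⟩
      have h1 := hdiff q hq1
      have h2 : ‖(t * (sg i * aa (t * (1 - q)))) • wv B (β q)‖ ≤ t ^ 4 * (1 - q) ^ 3 * M := by
        rw [norm_smul, Real.norm_eq_abs, haa q hq1]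
        refine mul_le_mul_of_nonneg_left (hmax' q hq1) ?_
        have : 0 ≤ 1 - q := sub_nonneg.2 hq1.2
        positivity
      calc ‖t • vec (st.u i) (t * (1 - q), β q)‖
          = ‖(t • vec (st.u i) (t * (1 - q), β q) - (t * (sg i * aa (t * (1 - q)))) • wv B (β q))
            + (t * (sg i * aa (t * (1 - q)))) • wv B (β q)‖ := by rw [sub_add_cancel]
        _ ≤ (t ^ 4 / 8 * M) * (1 - q) ^ 3 + t ^ 4 * (1 - q) ^ 3 * M :=
          (norm_add_le _ _).trans (add_le_add h1 h2)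
        _ = (9 / 8 * t ^ 4 * M) * (1 - q) ^ 3 := by ring
    have h3 := intervalIntegral.norm_integral_le_of_norm_le hr.1
      ((ae_restrict_iff' measurableSet_Ioc).1 hb)
      ((by fun_prop : Continuous fun q : ℝ => (9 / 8 * t ^ 4 * M) * (1 - q) ^ 3).intervalIntegrable
        _ _)
    refine h3.trans ?_
    rw [intervalIntegral.integral_const_mul]
    calc 9 / 8 * t ^ 4 * M * ∫ q in (0 : ℝ)..r, (1 - q) ^ 3 ≤ 9 / 8 * t ^ 4 * M * (1 / 4) :=
          mul_le_mul_of_nonneg_left int_cube_le (by positivity)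
      _ = 9 / 32 * t ^ 4 * M := by ring
  have hkt : B.kap * t ^ 4 ≤ 1 / 25 := by
    have h1 : t ^ 4 ≤ 16 * B.T ^ 4 := by
      have h2 : t ^ 4 = |t| ^ 4 := by
        rw [← abs_pow, abs_of_nonneg (by positivity)]
      rw [h2]
      calc |t| ^ 4 ≤ (2 * B.T) ^ 4 := pow_le_pow_left₀ (abs_nonneg t) ht2 4
        _ = 16 * B.T ^ 4 := by ring
    have h3 := B.hkT
    have h4 := B.hkap
    calc B.kap * t ^ 4 ≤ B.kap * (16 * B.T ^ 4) := mul_le_mul_of_nonneg_left h1 h4
      _ = 16 * (B.kap * B.T ^ 4) := by ring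
      _ ≤ 1 / 25 := by linarith
  have hwd : ∀ r ∈ Icc (0 : ℝ) 1, ‖wv B (β r) - wv B x‖ ≤ 1 / 50 * M := by
    intro r hr
    have h1 : ‖wv B (β r) - wv B x‖ ≤ B.kap * ‖β r - x‖ := B.w_lip (β r) x
    have h2 := hdist r hr
    calc ‖wv B (β r) - wv B x‖ ≤ B.kap * (9 / 32 * t ^ 4 * M) :=
          h1.trans (mul_le_mul_of_nonneg_left h2 B.hkap)
      _ = 9 / 32 * (B.kap * t ^ 4) * M := by ring
      _ ≤ 9 / 32 * (1 / 25) * M := by gcongr
      _ ≤ 1 / 50 * M := by nlinarith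
  have hMx : M ≤ 50 / 49 * ‖wv B x‖ := by
    have h1 := hwd r0 hr0
    have h2 : M ≤ ‖wv B (β r0) - wv B x‖ + ‖wv B x‖ := by
      have := norm_add_le (wv B (β r0) - wv B x) (wv B x)
      rw [sub_add_cancel] at this
      exact this
    linarith
  have hfin : vec (st.Y i) (t, x) - x + (sg i * th t) • wv B x =
      - ∫ q in (0 : ℝ)..1, (t • vec (st.u i) (t * (1 - q), β q)
        - (t * (sg i * aa (t * (1 - q)))) • wv B x) := by
    have hi : IntervalIntegrable (fun q => t • vec (st.u i) (t * (1 - q), β q)) volume 0 1 := by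
      refine ContinuousOn.intervalIntegrable ?_
      rw [uIcc_of_le zero_le_one]
      exact backPath_integrand_cont hUc t hβ
    have hi2 : Continuous fun q : ℝ => t * (sg i * aa (t * (1 - q))) := by
      unfold aa
      fun_prop
    have hi3 : IntervalIntegrable (fun q : ℝ => (t * (sg i * aa (t * (1 - q)))) • wv B x)
        volume 0 1 := (hi2.smul continuous_const).intervalIntegrable _ _
    rw [intervalIntegral.integral_sub hi hi3, intervalIntegral.integral_smul_const]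
    have h5 : ∫ q in (0 : ℝ)..1, t * (sg i * aa (t * (1 - q))) = sg i * th t := by
      have : ∀ q : ℝ, t * (sg i * aa (t * (1 - q))) = (sg i * t ^ 4) * (1 - q) ^ 3 := by
        intro q
        unfold aa
        ring
      simp only [this]
      rw [intervalIntegral.integral_const_mul, int_cube]
      unfold th
      ring
    rw [h5, ← hβ1, hβe 1 (right_mem_Icc.2 zero_le_one)]
    abel
  rw [hfin, norm_neg]
  have hb : ∀ᵐ q ∂(volume.restrict (Ioc (0 : ℝ) 1)),
      ‖t • vec (st.u i) (t * (1 - q), β q) - (t * (sg i * aa (t * (1 - q)))) • wv B x‖ ≤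
        (t ^ 4 / 6 * M) * (1 - q) ^ 3 := by
    refine ae_restrict_of_forall_mem measurableSet_Ioc fun q hq => ?_
    have hq1 : q ∈ Icc (0 : ℝ) 1 := ⟨hq.1.le, hq.2⟩
    have hq0 : 0 ≤ 1 - q := sub_nonneg.2 hq.2
    have h1 := hdiff q hq1
    have h2 : ‖(t * (sg i * aa (t * (1 - q)))) • (wv B (β q) - wv B x)‖ ≤
        t ^ 4 * (1 - q) ^ 3 * (1 / 50 * M) := by
      rw [norm_smul, Real.norm_eq_abs, haa q hq1]
      refine mul_le_mul_of_nonneg_left (hwd q hq1) ?_
      positivity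
    calc ‖t • vec (st.u i) (t * (1 - q), β q) - (t * (sg i * aa (t * (1 - q)))) • wv B x‖
        = ‖(t • vec (st.u i) (t * (1 - q), β q) - (t * (sg i * aa (t * (1 - q)))) • wv B (β q))
          + (t * (sg i * aa (t * (1 - q)))) • (wv B (β q) - wv B x)‖ := by
          rw [smul_sub]
          congr 1
          abel
      _ ≤ (t ^ 4 / 8 * M) * (1 - q) ^ 3 + t ^ 4 * (1 - q) ^ 3 * (1 / 50 * M) :=
        (norm_add_le _ _).trans (add_le_add h1 h2)
      _ = (29 / 200) * (t ^ 4 * M * (1 - q) ^ 3) := by ring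
      _ ≤ (1 / 6) * (t ^ 4 * M * (1 - q) ^ 3) := by
        refine mul_le_mul_of_nonneg_right (by norm_num) ?_
        positivity
      _ = (t ^ 4 / 6 * M) * (1 - q) ^ 3 := by ring
  have h3 := intervalIntegral.norm_integral_le_of_norm_le zero_le_one
    ((ae_restrict_iff' measurableSet_Ioc).1 hb)
    ((by fun_prop : Continuous fun q : ℝ => (t ^ 4 / 6 * M) * (1 - q) ^ 3).intervalIntegrable _ _)
  refine h3.trans ?_
  rw [intervalIntegral.integral_const_mul, int_cube]
  unfold th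
  have h6 : 0 ≤ t ^ 4 := by positivity
  have h7 : t ^ 4 * M ≤ t ^ 4 * (50 / 49 * ‖wv B x‖) := mul_le_mul_of_nonneg_left hMx h6
  have h8 : 0 ≤ t ^ 4 * ‖wv B x‖ := by positivity
  nlinarith

theorem Stage.Y_ne (st : Stage B) (t : ℝ) (x : V3) (ht : |t| ≤ 3 / 2 * B.T)
    (hS : 0 < SS B (t, x)) : vec (st.Y 0) (t, x) ≠ vec (st.Y 1) (t, x) := by
  intro he
  have h0 := st.displ 0 t x ht
  have h1 := st.displ 1 t x ht
  rw [← he] at h1
  have s0 : sg 0 = 1 := by simp [sg]
  have s1 : sg 1 = -1 := by simp [sg]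
  rw [s0] at h0
  rw [s1] at h1
  have e : (2 * th t) • wv B x =
      (vec (st.Y 0) (t, x) - x + (1 * th t) • wv B x) -
      (vec (st.Y 0) (t, x) - x + (-1 * th t) • wv B x) := by
    module
  have hth : 0 ≤ th t := by unfold th; positivity
  have h2 : ‖(2 * th t) • wv B x‖ ≤ th t * ‖wv B x‖ := by
    rw [e]
    refine (norm_sub_le _ _).trans ?_
    linarith
  rw [norm_smul, Real.norm_of_nonneg (by positivity)] at h2
  have h3 : th t * ‖wv B x‖ ≤ 0 := by linarith
  have h4 : th t * ‖wv B x‖ = 0 := le_antisymm h3 (by positivity)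
  rcases mul_eq_zero.1 h4 with h5 | h5
  · simp [SS, h5] at hS
  · have h6 : wv B x = 0 := norm_eq_zero.1 h5
    have h7 : ∀ k, B.w k x = 0 := fun k => congrFun h6 k
    simp [SS, h7] at hS

theorem norm_wv_le (x : V3) : ‖wv B x‖ ≤ 3 * B.kap := by
  by_cases hx : wv B x = 0
  · rw [hx, norm_zero]
    have := B.hkap
    positivity
  · have h1 : ∃ k, B.w k x ≠ 0 := by
      by_contra hcon
      push Not at hcon
      exact hx (funext hcon)
    obtain ⟨k, hk⟩ := h1
    have h2 := B.w_supp k x hk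
    let x' : V3 := B.x0 + Pi.single 0 2
    have h3 : ‖x' - B.x0‖ = 2 := by
      simp only [x', add_sub_cancel_left, Pi.norm_single]
      norm_num
    have h4 : wv B x' = 0 := by
      funext j
      by_contra hj
      have := B.w_supp j x' hj
      rw [h3] at this
      linarith [B.hr1]
    have h5 : ‖x - x'‖ ≤ 3 := by
      have : x - x' = (x - B.x0) - (x' - B.x0) := by abel
      rw [this]
      refine (norm_sub_le _ _).trans ?_
      rw [h3]
      linarith [B.hr1]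
    have h6 : ‖wv B x - wv B x'‖ ≤ B.kap * ‖x - x'‖ := B.w_lip x x'
    rw [h4, sub_zero] at h6
    calc ‖wv B x‖ ≤ B.kap * ‖x - x'‖ := h6
      _ ≤ B.kap * 3 := mul_le_mul_of_nonneg_left h5 B.hkap
      _ = 3 * B.kap := mul_comm _ _

theorem Stage.Y_near (st : Stage B) (i : Fin 2) (t : ℝ) (x : V3) (ht : |t| ≤ 3 / 2 * B.T) :
    ‖vec (st.Y i) (t, x) - x‖ ≤ 1 / 10 := by
  have h0 := st.displ i t x ht
  have hsg : |sg i| = 1 := by
    unfold sg
    split_ifs <;> simp
  have hth : 0 ≤ th t := by unfold th; positivity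
  have h1 : ‖(sg i * th t) • wv B x‖ = th t * ‖wv B x‖ := by
    rw [norm_smul, Real.norm_eq_abs, abs_mul, hsg, one_mul, abs_of_nonneg hth]
  have h2 : ‖vec (st.Y i) (t, x) - x‖ ≤ 3 / 2 * (th t * ‖wv B x‖) := by
    have e : vec (st.Y i) (t, x) - x =
        (vec (st.Y i) (t, x) - x + (sg i * th t) • wv B x) - (sg i * th t) • wv B x := by abel
    rw [e]
    refine (norm_sub_le _ _).trans ?_
    rw [h1]
    linarith
  have h3 := norm_wv_le (B := B) x
  have ht2 : |t| ≤ 2 * B.T := abs_le_of_le_32 B.hT ht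
  have h4 : th t ≤ 4 * B.T ^ 4 := by
    unfold th
    have h5 : t ^ 4 = |t| ^ 4 := by
      rw [← abs_pow, abs_of_nonneg (by positivity)]
    rw [h5]
    have h6 : |t| ^ 4 ≤ (2 * B.T) ^ 4 := pow_le_pow_left₀ (abs_nonneg t) ht2 4
    linarith [h6, (by ring : (2 * B.T) ^ 4 = 16 * B.T ^ 4)]
  have h5 : th t * ‖wv B x‖ ≤ 4 * B.T ^ 4 * (3 * B.kap) :=
    mul_le_mul h4 h3 (norm_nonneg _) (by positivity)
  have h6 := B.hkT
  have h7 : 4 * B.T ^ 4 * (3 * B.kap) = 12 * (B.kap * B.T ^ 4) := by ring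
  linarith

/-- `DY` is close to the identity (operator norm for the sup norm). -/
theorem Stage.DY (st : Stage B) (i : Fin 2) (z : X) (hz : |z.1| ≤ 3 / 2 * B.T) (v : V3) :
    ‖(fun j => ∑ k, dx k (st.Y i j) z * v k) - v‖ ≤ 1 / 19 * ‖v‖ := by
  obtain ⟨t, x⟩ := z
  have hT := B.hT
  have ht2 : |t| ≤ 2 * B.T := abs_le_of_le_32 hT hz
  obtain ⟨K, hK0, hK, hlip⟩ := st.lip
  have hUc : Continuous (vec (st.u i)) := continuous_pi fun k => (st.u_smooth i k).continuous
  have hKT : K * (40 * B.T) ≤ 1 := by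
    have := hK.le
    unfold Kmax at this
    rwa [le_div_iff₀ (by positivity)] at this
  have hY : ContDiff ℝ ∞ (vec (st.Y i)) := contDiff_pi.2 fun k => st.Y_smooth i k
  have hL : ∀ y y' : V3, ‖(vec (st.Y i) (t, y) - y) - (vec (st.Y i) (t, y') - y')‖ ≤
      1 / 19 * ‖y - y'‖ := by
    intro y y'
    have := path_stab B.T K 0 hT hK0 hKT le_rfl (vec (st.u i)) (vec (st.u i)) hUc hUc t ht2
      (fun s hs x y => hlip i s (hs.trans ht2) x y) (fun s _ x => by simp) y y'
      (vec (st.Y i) (t, y)) (vec (st.Y i) (t, y')) (st.path i t y hz) (st.path i t y' hz)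
    rw [mul_zero, add_zero] at this
    rw [sub_sub_sub_comm]
    exact this
  have hD : HasFDerivAt (fun y : V3 => vec (st.Y i) (t, y) - y)
      ((fderiv ℝ (vec (st.Y i)) (t, x) ∘L .inr ℝ ℝ V3) - ContinuousLinearMap.id ℝ V3) x := by
    have h1 : HasFDerivAt (vec (st.Y i)) (fderiv ℝ (vec (st.Y i)) (t, x)) (t, x) :=
      (hY.differentiable (by simp) _).hasFDerivAt
    exact (h1.comp x (hasFDerivAt_prodMk_right t x)).sub (hasFDerivAt_id x)
  have hlip2 : LipschitzWith (1 / 19) (fun y : V3 => vec (st.Y i) (t, y) - y) := by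
    refine LipschitzWith.of_dist_le_mul fun y y' => ?_
    rw [dist_eq_norm, dist_eq_norm]
    simpa using hL y y'
  have hn := hD.le_of_lipschitz hlip2
  have hcomp : (fun j => ∑ k, dx k (st.Y i j) (t, x) * v k) - v =
      ((fderiv ℝ (vec (st.Y i)) (t, x) ∘L .inr ℝ ℝ V3) - ContinuousLinearMap.id ℝ V3) v := by
    ext j
    simp only [Pi.sub_apply, sub_apply, ContinuousLinearMap.comp_apply,
      ContinuousLinearMap.inr_apply, ContinuousLinearMap.id_apply]
    congr 1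
    have h1 : ∑ k, dx k (st.Y i j) (t, x) * v k = ∑ k, v k * dx k (st.Y i j) (t, x) :=
      Finset.sum_congr rfl fun k _ => mul_comm _ _
    rw [h1, sum_dx_mul]
    have h2 : HasFDerivAt (vec (st.Y i)) (fderiv ℝ (vec (st.Y i)) (t, x)) (t, x) :=
      (hY.differentiable (by simp) _).hasFDerivAt
    have h3 := (hasFDerivAt_pi'.1 h2) j
    have h4 : fderiv ℝ (st.Y i j) (t, x) =
        (ContinuousLinearMap.proj j).comp (fderiv ℝ (vec (st.Y i)) (t, x)) := h3.fderiv
    rw [h4]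
    rfl
  rw [hcomp]
  refine (ContinuousLinearMap.le_opNorm _ v).trans ?_
  refine mul_le_mul_of_nonneg_right ?_ (norm_nonneg v)
  simpa using hn

end H37.MHD
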