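import Mathlib

set_option autoImplicit false

namespace Pool.Agent.H33

open Finset Filter

/-- (N - 4)^(e-1) (N - 4 + 2 e^2) > N^e for N = 8 e. -/
lemma numeric_strict (e : ℕ) (he : 3 ≤ e) :
    ((8 * e : ℝ)) ^ e < ((8 * e : ℝ) - 4) ^ (e - 1) * ((8 * e : ℝ) - 4 + 2 * (e : ℝ) ^ 2) := by
  obtain ⟨k, rfl⟩ : ∃ k, e = k + 3 := ⟨e - 3, by omega⟩
  have hk : (0 : ℝ) ≤ (k : ℝ) := by positivity
  push_cast
  set x : ℝ := (k : ℝ) + 3 with hx
  have hx3 : 3 ≤ x := by linarith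
  have h8 : (0 : ℝ) < 8 * x := by linarith
  have hbern := one_add_mul_le_pow (a := -(4 / (8 * x))) (by
    have : 4 / (8 * x) ≤ 1 := by rw [div_le_one h8]; linarith
    linarith) (k + 2)
  show (8 * x) ^ (k + 3) < (8 * x - 4) ^ (k + 2) * (8 * x - 4 + 2 * x ^ 2)
  have h2 : (8 * x - 4) = (8 * x) * (1 + -(4 / (8 * x))) := by
    field_simp
    ring
  have h3 : (8 * x - 4) ^ (k + 2) = (8 * x) ^ (k + 2) * (1 + -(4 / (8 * x))) ^ (k + 2) := by
    rw [← mul_pow, ← h2]
  rw [h3]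
  have h4 : (8 * x) ^ (k + 3) = (8 * x) ^ (k + 2) * (8 * x) := by ring
  rw [h4, mul_assoc]
  apply mul_lt_mul_of_pos_left _ (by positivity)
  have h5 : (0 : ℝ) < 8 * x - 4 + 2 * x ^ 2 := by nlinarith
  refine lt_of_lt_of_le ?_ (mul_le_mul_of_nonneg_right hbern h5.le)
  push_cast
  have hkx : (k : ℝ) + 2 = x - 1 := by rw [hx]; ring
  rw [hkx]
  have h6 : (1 + (x - 1) * -(4 / (8 * x))) = (x + 1) / (2 * x) := by
    field_simp
    ring
  rw [h6, div_mul_eq_mul_div, lt_div_iff₀ (by linarith)]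
  nlinarith [mul_nonneg (mul_self_nonneg x) (by linarith : 0 ≤ x - 3)]

lemma numeric_one (e : ℕ) (he : 3 ≤ e) :
    ∃ Q : ℕ, ∀ q : ℕ, Q ≤ q → ∀ r : ℕ, 8 * e * q ≤ r → r < 8 * e * (q + 1) →
      (e + r).choose e ≤ (r - 1 - 2 * q - 2 * q + e).choose e
        + e * (2 * q * (r - 1 - 2 * q - 2 * q + (e - 1)).choose (e - 1)) := by
  have hs := numeric_strict e he
  set A : ℝ := ((8 * e : ℝ) - 4) ^ (e - 1) * ((8 * e : ℝ) - 4 + 2 * (e : ℝ) ^ 2) with hA
  have he3 : (3 : ℝ) ≤ (e : ℝ) := by exact_mod_cast he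
  have htend : Tendsto (fun q : ℕ => ((8 * e : ℝ) + (9 * e : ℝ) / (q : ℝ)) ^ e) atTop
      (nhds (((8 * e : ℝ) + 0) ^ e)) := by
    apply Tendsto.pow
    apply Tendsto.add tendsto_const_nhds
    exact tendsto_const_div_atTop_nhds_zero_nat _
  rw [add_zero] at htend
  have hev := htend.eventually (gt_mem_nhds hs)
  rw [eventually_atTop] at hev
  obtain ⟨Q, hQ⟩ := hev
  refine ⟨max Q 1, fun q hq r hr1 hr2 => ?_⟩
  have hq1 : 1 ≤ q := le_trans (le_max_right _ _) hq
  have hqQ := hQ q (le_trans (le_max_left _ _) hq)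
  have hq0 : (0 : ℝ) < (q : ℝ) := by exact_mod_cast hq1
  have h1 : ((8 * e : ℝ) * (q : ℝ) + 9 * e) ^ e < A * (q : ℝ) ^ e := by
    have : ((8 * e : ℝ) * (q : ℝ) + 9 * e) = ((8 * e : ℝ) + (9 * e : ℝ) / (q : ℝ)) * q := by
      field_simp
    rw [this, mul_pow]
    exact mul_lt_mul_of_pos_right hqQ (by positivity)
  -- lower bounds for binomials
  have hr4 : 8 * e * q - 4 * q ≤ r - 4 * q := by omega
  have h4q : 4 * q < r := by nlinarith
  have hb1 := Nat.pow_le_choose (α := ℝ) e (r - 1 - 2 * q - 2 * q + e)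
  have hb2 := Nat.pow_le_choose (α := ℝ) (e - 1) (r - 1 - 2 * q - 2 * q + (e - 1))
  have hn1 : r - 1 - 2 * q - 2 * q + e + 1 - e = r - 4 * q := by omega
  have hn2 : r - 1 - 2 * q - 2 * q + (e - 1) + 1 - (e - 1) = r - 4 * q := by omega
  rw [hn1] at hb1
  rw [hn2] at hb2
  have hu := Nat.choose_le_pow_div (α := ℝ) e (e + r)
  set X : ℝ := ((8 * e : ℝ) - 4) * q with hX
  have hX0 : 0 < X := by
    rw [hX]; apply mul_pos _ hq0; linarith
  have hXY : X ≤ ((r - 4 * q : ℕ) : ℝ) := by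
    have h : ((8 * e * q : ℕ) : ℝ) ≤ (r : ℝ) := by exact_mod_cast hr1
    rw [Nat.cast_sub h4q.le]
    push_cast at h ⊢
    rw [hX]
    linarith
  have hfac : ((e.factorial : ℕ) : ℝ) = (e : ℝ) * (((e - 1).factorial : ℕ) : ℝ) := by
    have := Nat.mul_factorial_pred (n := e) (by omega)
    exact_mod_cast this.symm
  have hfp : (0 : ℝ) < (((e - 1).factorial : ℕ) : ℝ) := by exact_mod_cast Nat.factorial_pos _
  have hfe : (0 : ℝ) < ((e.factorial : ℕ) : ℝ) := by exact_mod_cast Nat.factorial_pos _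
  have hpow1 : X ^ e ≤ ((r - 4 * q : ℕ) : ℝ) ^ e := pow_le_pow_left₀ hX0.le hXY e
  have hpow2 : X ^ (e - 1) ≤ ((r - 4 * q : ℕ) : ℝ) ^ (e - 1) := pow_le_pow_left₀ hX0.le hXY (e - 1)
  have hXe : X ^ e = X ^ (e - 1) * X := by
    rw [← pow_succ]; congr 1; omega
  have hqe : (q : ℝ) ^ e = (q : ℝ) ^ (e - 1) * q := by
    rw [← pow_succ]; congr 1; omega
  have hAq : A * (q : ℝ) ^ e = X ^ (e - 1) * (X + 2 * (e : ℝ) ^ 2 * q) := by
    rw [hA, hX, hqe, mul_pow]; ring
  have hup : ((e + r : ℕ) : ℝ) ^ e ≤ ((8 * e : ℝ) * (q : ℝ) + 9 * e) ^ e := by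
    apply pow_le_pow_left₀ (by positivity)
    have : (r : ℝ) ≤ ((8 * e * (q + 1) : ℕ) : ℝ) := by exact_mod_cast hr2.le
    push_cast at this ⊢
    linarith
  have hfinal : (((e + r).choose e : ℕ) : ℝ) ≤
      (((r - 1 - 2 * q - 2 * q + e).choose e
        + e * (2 * q * (r - 1 - 2 * q - 2 * q + (e - 1)).choose (e - 1)) : ℕ) : ℝ) := by
    push_cast
    calc (((e + r).choose e : ℕ) : ℝ) ≤ ((e + r : ℕ) : ℝ) ^ e / (e.factorial : ℝ) := by
          exact_mod_cast hu
      _ ≤ (A * (q : ℝ) ^ e) / (e.factorial : ℝ) := by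
          apply div_le_div_of_nonneg_right _ hfe.le
          linarith
      _ = X ^ e / (e.factorial : ℝ) + (e : ℝ) * (2 * q * (X ^ (e - 1) / ((e - 1).factorial : ℝ))) := by
          rw [hAq, hXe, hfac]
          field_simp
      _ ≤ _ := by
          apply add_le_add
          · exact le_trans (div_le_div_of_nonneg_right hpow1 hfe.le) (by exact_mod_cast hb1)
          · apply mul_le_mul_of_nonneg_left _ (by positivity)
            apply mul_le_mul_of_nonneg_left _ (by positivity)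
            exact le_trans (div_le_div_of_nonneg_right hpow2 hfp.le) (by exact_mod_cast hb2)
  exact_mod_cast hfinal

lemma numeric_two (e : ℕ) (he : 3 ≤ e) (q r : ℕ) (hq : e * (9 * e) ^ e ≤ q)
    (hr1 : 8 * e * q ≤ r) (hr2 : r < 8 * e * (q + 1)) :
    ((e : ℝ) - 1) / ((r : ℝ) + e - 1) * (((e + r - 1).choose r : ℕ) : ℝ) ≤
      (((q + e).choose e : ℕ) : ℝ) *
        (((e : ℝ) - 1) / (((r - 1 - q : ℕ) : ℝ) + e - 1) - ((e : ℝ) - 1) / ((r : ℝ) + e - 1)) := by
  have he3 : (3 : ℝ) ≤ (e : ℝ) := by exact_mod_cast he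
  have hqr : q < r := by
    have : 1 ≤ q := by
      have : 0 < e * (9 * e) ^ e := by positivity
      omega
    nlinarith
  have hb1 := Nat.pow_le_choose (α := ℝ) e (q + e)
  have hn1 : q + e + 1 - e = q + 1 := by omega
  rw [hn1] at hb1
  have hsymm : (e + r - 1).choose r = (e + r - 1).choose (e - 1) := by
    apply Nat.choose_symm_of_eq_add; omega
  rw [hsymm]
  have hu := Nat.choose_le_pow_div (α := ℝ) (e - 1) (e + r - 1)
  have hfac : ((e.factorial : ℕ) : ℝ) = (e : ℝ) * (((e - 1).factorial : ℕ) : ℝ) := by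
    have := Nat.mul_factorial_pred (n := e) (by omega)
    exact_mod_cast this.symm
  have hfp : (0 : ℝ) < (((e - 1).factorial : ℕ) : ℝ) := by exact_mod_cast Nat.factorial_pos _
  have hfe : (0 : ℝ) < ((e.factorial : ℕ) : ℝ) := by exact_mod_cast Nat.factorial_pos _
  set R : ℝ := (r : ℝ) + e - 1 with hR
  have hr0 : (0 : ℝ) ≤ (r : ℝ) := by positivity
  have hRpos : 0 < R := by rw [hR]; linarith
  have hcast : ((e + r - 1 : ℕ) : ℝ) = R := by
    rw [Nat.cast_sub (by omega)]; push_cast; rw [hR]; ring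
  have hcast2 : (((r - 1 - q : ℕ) : ℝ) + e - 1) = R - (q + 1) := by
    rw [Nat.cast_sub (by omega), Nat.cast_sub (by omega)]; push_cast; rw [hR]; ring
  rw [hcast2]
  have hq1R : (q : ℝ) + 1 < R := by
    have : ((q + 1 : ℕ) : ℝ) ≤ (r : ℝ) := by exact_mod_cast hqr
    push_cast at this
    rw [hR]; linarith
  have hdiff : ((e : ℝ) - 1) / R ^ 2 * ((q : ℝ) + 1) ≤
      ((e : ℝ) - 1) / (R - (q + 1)) - ((e : ℝ) - 1) / R := by
    have h1 : ((e : ℝ) - 1) / (R - (q + 1)) - ((e : ℝ) - 1) / R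
        = ((e : ℝ) - 1) * ((q : ℝ) + 1) / ((R - (q + 1)) * R) := by
      have : R - ((q : ℝ) + 1) ≠ 0 := by linarith
      field_simp
      ring
    rw [h1, div_mul_eq_mul_div]
    apply div_le_div_of_nonneg_left
    · apply mul_nonneg <;> [linarith; positivity]
    · apply mul_pos <;> linarith
    · rw [sq]
      apply mul_le_mul_of_nonneg_right _ hRpos.le
      have : (0 : ℝ) ≤ (q : ℝ) := by positivity
      linarith
  have hRle : R ≤ (9 * e : ℝ) * ((q : ℝ) + 1) := by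
    have h : (r : ℝ) ≤ ((8 * e * (q + 1) : ℕ) : ℝ) := by exact_mod_cast hr2.le
    push_cast at h
    rw [hR]
    have : (0 : ℝ) ≤ (e : ℝ) * q := by positivity
    nlinarith
  have hqe : (e : ℝ) * (9 * e : ℝ) ^ e ≤ (q : ℝ) + 1 := by
    have : ((e * (9 * e) ^ e : ℕ) : ℝ) ≤ (q : ℝ) := by exact_mod_cast hq
    push_cast at this
    linarith
  -- main chain
  calc ((e : ℝ) - 1) / R * (((e + r - 1).choose (e - 1) : ℕ) : ℝ)
      ≤ ((e : ℝ) - 1) / R * (R ^ (e - 1) / ((e - 1).factorial : ℝ)) := by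
        apply mul_le_mul_of_nonneg_left _ (div_nonneg (by linarith) hRpos.le)
        rw [← hcast]
        exact_mod_cast hu
    _ ≤ (((q : ℝ) + 1) ^ e / (e.factorial : ℝ)) * (((e : ℝ) - 1) / R ^ 2 * ((q : ℝ) + 1)) := by
        have hRe : R * R ^ (e - 1) = R ^ e := by
          rw [← pow_succ']; congr 1; omega
        have h1 : ((e : ℝ) - 1) / R * (R ^ (e - 1) / ((e - 1).factorial : ℝ))
            = ((e : ℝ) - 1) * (e * R ^ e) / (R ^ 2 * (e.factorial : ℝ)) := by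
          rw [hfac, ← hRe]
          have : (e : ℝ) ≠ 0 := by linarith
          field_simp
        have h2 : (((q : ℝ) + 1) ^ e / (e.factorial : ℝ)) * (((e : ℝ) - 1) / R ^ 2 * ((q : ℝ) + 1))
            = ((e : ℝ) - 1) * (((q : ℝ) + 1) ^ e * ((q : ℝ) + 1)) / (R ^ 2 * (e.factorial : ℝ)) := by
          field_simp
        rw [h1, h2]
        apply div_le_div_of_nonneg_right _ (by positivity)
        apply mul_le_mul_of_nonneg_left _ (by linarith)
        calc (e : ℝ) * R ^ e ≤ e * ((9 * e : ℝ) * ((q : ℝ) + 1)) ^ e := by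
              apply mul_le_mul_of_nonneg_left _ (by positivity)
              exact pow_le_pow_left₀ hRpos.le hRle e
          _ = ((q : ℝ) + 1) ^ e * ((e : ℝ) * (9 * e : ℝ) ^ e) := by
              rw [mul_pow]; ring
          _ ≤ ((q : ℝ) + 1) ^ e * ((q : ℝ) + 1) := by
              apply mul_le_mul_of_nonneg_left hqe (by positivity)
    _ ≤ (((q + e).choose e : ℕ) : ℝ) * (((e : ℝ) - 1) / R ^ 2 * ((q : ℝ) + 1)) := by
        apply mul_le_mul_of_nonneg_right
        · exact_mod_cast hb1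
        · apply mul_nonneg
          · apply div_nonneg (by linarith) (by positivity)
          · positivity
    _ ≤ _ := by
        apply mul_le_mul_of_nonneg_left hdiff (by positivity)

end Pool.Agent.H33
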