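import Mathlib
import Pool.Agent.H33.LYM

set_option autoImplicit false

namespace Pool.Agent.H33

open Finset

section Simplex

variable {σ : Type*} [DecidableEq σ]

/-- exponent vectors supported on `s` with degree at most `n` -/
noncomputable def smpx (s : Finset σ) (n : ℕ) : Finset (σ →₀ ℕ) :=
  (range (n + 1)).biUnion (fun d => s.finsuppAntidiag d)

lemma mem_smpx {s : Finset σ} {n : ℕ} {a : σ →₀ ℕ} :
    a ∈ smpx s n ↔ a.support ⊆ s ∧ a.degree ≤ n := by
  unfold smpx
  simp only [mem_biUnion, mem_range, mem_finsuppAntidiag']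
  constructor
  · rintro ⟨d, hd, h1, h2⟩
    refine ⟨h2, ?_⟩
    have : a.degree = d := by rw [← h1]; rfl
    omega
  · rintro ⟨h1, h2⟩
    exact ⟨a.degree, by omega, rfl, h1⟩

lemma sum_smpx (s : Finset σ) (n : ℕ) (g : ℕ → ℝ) :
    ∑ a ∈ smpx s n, g a.degree = ∑ d ∈ range (n + 1), ((s.card.multichoose d : ℕ) : ℝ) * g d := by
  unfold smpx
  rw [Finset.sum_biUnion]
  · apply Finset.sum_congr rfl
    intro d _
    rw [← card_finsuppAntidiag_nat_eq_multichoose]
    rw [← nsmul_eq_mul, ← Finset.sum_const]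
    apply Finset.sum_congr rfl
    intro a ha
    rw [mem_finsuppAntidiag'] at ha
    have : a.degree = d := by rw [← ha.1]; rfl
    rw [this]
  · intro x _ y _ hxy
    rw [Function.onFun, Finset.disjoint_left]
    intro a hax hay
    rw [mem_finsuppAntidiag'] at hax hay
    exact hxy (hax.1.symm.trans hay.1)

lemma card_smpx (s : Finset σ) (n : ℕ) :
    (smpx s n).card = (n + s.card).choose s.card := by
  have h := sum_smpx s n (fun _ => 1)
  simp only [mul_one, Finset.sum_const, nsmul_eq_mul] at h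
  have h2 : (smpx s n).card = ∑ d ∈ range (n + 1), s.card.multichoose d := by
    exact_mod_cast h
  rw [h2, Nat.sum_range_multichoose]

lemma multichoose_mul (e d : ℕ) (he : 2 ≤ e) :
    ((e.multichoose d : ℕ) : ℝ) * (((e : ℝ) - 1) / ((d : ℝ) + (e : ℝ) - 1))
      = (((e - 1).multichoose d : ℕ) : ℝ) := by
  obtain ⟨k, rfl⟩ : ∃ k, e = k + 2 := ⟨e - 2, by omega⟩
  rw [Nat.multichoose_eq, Nat.multichoose_eq]
  have h1 : k + 2 + d - 1 = (k + d) + 1 := by omega
  have h2 : k + 2 - 1 + d - 1 = k + d := by omega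
  rw [h1, h2]
  have h3 := Nat.choose_mul_succ_eq (k + d) d
  have h4 : k + d + 1 - d = k + 1 := by omega
  rw [h4] at h3
  have h5 : (((k + d).choose d : ℕ) : ℝ) * ((k : ℝ) + d + 1) =
      (((k + d + 1).choose d : ℕ) : ℝ) * ((k : ℝ) + 1) := by exact_mod_cast h3
  have hpos : (0 : ℝ) < (d : ℝ) + ((k + 2 : ℕ) : ℝ) - 1 := by
    push_cast
    have : (0 : ℝ) ≤ (d : ℝ) := by positivity
    have : (0 : ℝ) ≤ (k : ℝ) := by positivity
    linarith
  rw [mul_div_assoc', div_eq_iff hpos.ne']
  push_cast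
  linarith

lemma sum_smpx_f [Fintype σ] (r : ℕ) (hr : 1 ≤ r) (he : 2 ≤ Fintype.card σ) :
    ∑ a ∈ smpx (Finset.univ : Finset σ) (r - 1),
      ((Fintype.card σ : ℝ) - 1) / ((a.degree : ℝ) + (Fintype.card σ : ℝ) - 1)
      = (((Fintype.card σ + r - 2).choose (r - 1) : ℕ) : ℝ) := by
  rw [sum_smpx Finset.univ (r - 1)
    (fun d => ((Fintype.card σ : ℝ) - 1) / ((d : ℝ) + (Fintype.card σ : ℝ) - 1))]
  rw [Finset.card_univ]
  rw [Finset.sum_congr rfl (fun d _ => multichoose_mul (Fintype.card σ) d he)]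
  rw [← Nat.cast_sum, Nat.sum_range_multichoose]
  congr 1
  have h1 : r - 1 + (Fintype.card σ - 1) = Fintype.card σ + r - 2 := by omega
  rw [h1]
  apply Nat.choose_symm_of_eq_add
  omega

/-- packing bound -/
lemma packing [Fintype σ] (S : Finset (σ →₀ ℕ)) (m : ℕ) [NeZero m]
    (φ : (σ →₀ ℕ) →+ ZMod m) (hinj : Set.InjOn φ S) (K l : ℕ) (hl : l ≤ K)
    (hK : smpx (Finset.univ : Finset σ) K ⊆ S) :
    (K - l + Fintype.card σ).choose (Fintype.card σ)
      + Fintype.card σ * (l * (K - l + (Fintype.card σ - 1)).choose (Fintype.card σ - 1)) ≤ m := by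
  classical
  set T : Finset ((σ →₀ ℕ) ⊕ ((_ : σ) × (ℕ × (σ →₀ ℕ)))) :=
    (smpx (Finset.univ : Finset σ) (K - l)).disjSum
      ((Finset.univ : Finset σ).sigma (fun i => (Finset.Icc 1 l) ×ˢ smpx (Finset.univ.erase i) (K - l)))
    with hT
  have hcard : T.card = (K - l + Fintype.card σ).choose (Fintype.card σ)
      + Fintype.card σ * (l * (K - l + (Fintype.card σ - 1)).choose (Fintype.card σ - 1)) := by
    rw [hT, Finset.card_disjSum, card_smpx, Finset.card_univ, Finset.card_sigma]
    congr 1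
    have : ∀ i ∈ (Finset.univ : Finset σ),
        ((Finset.Icc 1 l) ×ˢ smpx (Finset.univ.erase i) (K - l)).card
          = l * (K - l + (Fintype.card σ - 1)).choose (Fintype.card σ - 1) := by
      intro i _
      rw [Finset.card_product, card_smpx, Nat.card_Icc, Finset.card_erase_of_mem (Finset.mem_univ i),
        Finset.card_univ]
      rfl
    rw [Finset.sum_congr rfl this]
    simp
  rw [← hcard]
  have hm : m = (Finset.univ : Finset (ZMod m)).card := by
    rw [Finset.card_univ, ZMod.card]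
  conv_rhs => rw [hm]
  let f : ((σ →₀ ℕ) ⊕ ((_ : σ) × (ℕ × (σ →₀ ℕ)))) → ZMod m :=
    fun x => match x with
      | Sum.inl a => φ a
      | Sum.inr ⟨i, j, z⟩ => φ z - φ (Finsupp.single i j)
  have hSinj : ∀ a b : σ →₀ ℕ, a.degree ≤ K → b.degree ≤ K → φ a = φ b → a = b := by
    intro a b ha hb hab
    exact hinj (hK (mem_smpx.2 ⟨Finset.subset_univ _, ha⟩))
      (hK (mem_smpx.2 ⟨Finset.subset_univ _, hb⟩)) hab
  apply Finset.card_le_card_of_injOn f (fun _ _ => Finset.mem_univ _)
  have hz0 : ∀ (i : σ) (z : σ →₀ ℕ), z ∈ smpx (Finset.univ.erase i) (K - l) → z i = 0 := by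
    intro i z hz
    rw [mem_smpx] at hz
    by_contra hne
    have := hz.1 (Finsupp.mem_support_iff.2 hne)
    simp at this
  have key1 : ∀ (a z : σ →₀ ℕ) (i : σ) (j : ℕ), a ∈ smpx (Finset.univ : Finset σ) (K - l) →
      j ∈ Finset.Icc 1 l → z ∈ smpx (Finset.univ.erase i) (K - l) →
      φ a = φ z - φ (Finsupp.single i j) → False := by
    intro a z i j ha hj hz h
    rw [Finset.mem_Icc] at hj
    have h1 : φ (a + Finsupp.single i j) = φ z := by
      rw [map_add, h]; ring
    have ha' := (mem_smpx.1 ha).2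
    have hz' := (mem_smpx.1 hz).2
    have h2 := hSinj _ _ (by simp; omega) (by omega) h1
    have h3 := congrArg (fun v : σ →₀ ℕ => v i) h2
    simp only [Finsupp.add_apply, Finsupp.single_eq_same] at h3
    rw [hz0 i z hz] at h3
    omega
  intro x hx y hy hxy
  rw [Finset.mem_coe, hT] at hx hy
  rcases x with a | ⟨i, j, z⟩ <;> rcases y with b | ⟨i', j', z'⟩
  · rw [Finset.inl_mem_disjSum] at hx hy
    have ha' := (mem_smpx.1 hx).2
    have hb' := (mem_smpx.1 hy).2
    have := hSinj a b (by omega) (by omega) hxy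
    rw [this]
  · exfalso
    rw [Finset.inl_mem_disjSum] at hx
    rw [Finset.inr_mem_disjSum] at hy
    simp only [Finset.mem_sigma, Finset.mem_univ, true_and, Finset.mem_product] at hy
    exact key1 a z' i' j' hx hy.1 hy.2 hxy
  · exfalso
    rw [Finset.inl_mem_disjSum] at hy
    rw [Finset.inr_mem_disjSum] at hx
    simp only [Finset.mem_sigma, Finset.mem_univ, true_and, Finset.mem_product] at hx
    exact key1 b z i j hy hx.1 hx.2 hxy.symm
  · rw [Finset.inr_mem_disjSum] at hx hy
    simp only [Finset.mem_sigma, Finset.mem_univ, true_and, Finset.mem_product] at hx hy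
    have hxy' : φ z - φ (Finsupp.single i j) = φ z' - φ (Finsupp.single i' j') := hxy
    have h1 : φ (z + Finsupp.single i' j') = φ (z' + Finsupp.single i j) := by
      rw [map_add, map_add]
      linear_combination hxy'
    have hz' := (mem_smpx.1 hx.2).2
    have hz'' := (mem_smpx.1 hy.2).2
    have hj := Finset.mem_Icc.1 hx.1
    have hj' := Finset.mem_Icc.1 hy.1
    have h2 := hSinj _ _ (by simp; omega) (by simp; omega) h1
    have hzi := hz0 i z hx.2
    have hzi' := hz0 i' z' hy.2
    by_cases hii : i = i'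
    · subst hii
      have h3 := congrArg (fun v : σ →₀ ℕ => v i) h2
      simp only [Finsupp.add_apply, Finsupp.single_eq_same] at h3
      rw [hzi, hzi'] at h3
      have hjj : j = j' := by omega
      subst hjj
      have h4 : z = z' := by
        exact add_right_cancel h2
      rw [h4]
    · exfalso
      have h3 := congrArg (fun v : σ →₀ ℕ => v i) h2
      simp only [Finsupp.add_apply, Finsupp.single_eq_same] at h3
      rw [hzi, Finsupp.single_eq_of_ne hii] at h3
      omega

end Simplex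

end Pool.Agent.H33
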