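import Mathlib
import Pool.Agent.H33.Simplex
import Pool.Agent.H33.Numeric

set_option autoImplicit false

namespace Pool.Agent.H33

open Finset

variable {σ : Type*} [DecidableEq σ] [Fintype σ]

/-- For large `m`, a lower set `S` of exponent vectors with at most `m` elements, injected in
`ZMod m` by an additive map, has fewer than `C(e+r-2, r-1)` maximal elements. -/
theorem main_bound (he : 3 ≤ Fintype.card σ) :
    ∃ M : ℕ, ∀ m : ℕ, M ≤ m → ∀ r : ℕ, (Fintype.card σ + r - 1).choose (r - 1) ≤ m →
      m < (Fintype.card σ + r).choose r →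
      ∀ (S : Finset (σ →₀ ℕ)) (φ : (σ →₀ ℕ) →+ ZMod m),
        (∀ a ∈ S, ∀ b, b ≤ a → b ∈ S) → Set.InjOn φ S →
        (S.filter (fun a => ∀ i, a + Finsupp.single i 1 ∉ S)).card
          < (Fintype.card σ + r - 2).choose (r - 1) := by
  classical
  set e := Fintype.card σ with hedef
  obtain ⟨Q₁, hQ₁⟩ := numeric_one e he
  set Q := max (max Q₁ (e * (9 * e) ^ e)) 1 with hQ
  refine ⟨(e + 8 * e * Q).choose e, fun m hm r hrm hmr S φ hlow hinj => ?_⟩
  have hsymm : (e + r).choose r = (e + r).choose e := by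
    apply Nat.choose_symm_of_eq_add; omega
  have hr0 : 1 ≤ r := by
    rcases Nat.eq_zero_or_pos r with h | h
    · subst h
      have h0 : (e + 8 * e * Q).choose e ≥ 1 := Nat.choose_pos (by omega)
      simp at hmr
      omega
    · exact h
  have hmpos : 0 < m := by
    have h0 : (e + 8 * e * Q).choose e ≥ 1 := Nat.choose_pos (by omega)
    omega
  have : NeZero m := ⟨hmpos.ne'⟩
  -- r is large
  have hrQ : 8 * e * Q < r := by
    by_contra hcon
    push Not at hcon
    have : (e + r).choose e ≤ (e + 8 * e * Q).choose e := Nat.choose_le_choose e (by omega)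
    omega
  set q := r / (8 * e) with hq
  have h8e : 0 < 8 * e := by omega
  have hr1 : 8 * e * q ≤ r := Nat.mul_div_le r (8 * e)
  have hr2 : r < 8 * e * (q + 1) := by
    have := Nat.lt_mul_div_succ r h8e
    exact this
  have hQq : Q ≤ q := by
    rw [hq, Nat.le_div_iff_mul_le h8e]
    calc Q * (8 * e) = 8 * e * Q := by ring
      _ ≤ r := hrQ.le
  have hQ₁q : Q₁ ≤ q := le_trans (le_trans (le_max_left _ _) (le_max_left _ _)) hQq
  have hQ₂q : e * (9 * e) ^ e ≤ q := le_trans (le_trans (le_max_right _ _) (le_max_left _ _)) hQq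
  have hQ₃q : 1 ≤ q := le_trans (le_max_right _ _) hQq
  have h24 : 24 * q ≤ r := by
    calc 24 * q ≤ 8 * e * q := by
          apply Nat.mul_le_mul_right; omega
      _ ≤ r := hr1
  -- cardinality of S
  have hScard : S.card ≤ m := by
    have h1 := Finset.card_le_card_of_injOn φ (s := S) (t := (Finset.univ : Finset (ZMod m)))
      (fun _ _ => Finset.mem_univ _) hinj
    rwa [Finset.card_univ, ZMod.card] at h1
  -- S misses a monomial of small degree
  have hmiss : ¬ (smpx (Finset.univ : Finset σ) (r - 1 - 2 * q) ⊆ S) := by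
    intro hsub
    have h1 := packing S m φ hinj (r - 1 - 2 * q) (2 * q) (by omega) hsub
    have h2 := hQ₁ q hQ₁q r hr1 hr2
    rw [← hedef] at h1
    omega
  rw [Finset.not_subset] at hmiss
  obtain ⟨b, hbK, hbS⟩ := hmiss
  have hbdeg := (mem_smpx.1 hbK).2
  -- the set of missing monomials
  set D := smpx (Finset.univ : Finset σ) (r - 1) with hD
  set B := (smpx (Finset.univ : Finset σ) q).image (fun z => b + z) with hB
  have hBcard : B.card = (q + e).choose e := by
    rw [hB, Finset.card_image_of_injective _ (add_right_injective b), card_smpx, Finset.card_univ]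
  have hBdeg : ∀ a ∈ B, a.degree ≤ r - 1 - q := by
    intro a ha
    rw [hB, Finset.mem_image] at ha
    obtain ⟨z, hz, rfl⟩ := ha
    have := (mem_smpx.1 hz).2
    rw [map_add]
    omega
  have hBsub : B ⊆ D \ S := by
    intro a ha
    rw [Finset.mem_sdiff]
    refine ⟨mem_smpx.2 ⟨Finset.subset_univ _, le_trans (hBdeg a ha) (by omega)⟩, ?_⟩
    intro haS
    rw [hB, Finset.mem_image] at ha
    obtain ⟨z, hz, rfl⟩ := ha
    exact hbS (hlow _ haS b le_self_add)
  -- apply LYM
  set f : ℕ → ℝ := fun d => ((e : ℝ) - 1) / ((d : ℝ) + (e : ℝ) - 1) with hf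
  have hlym := card_maximal_le S (fun a ha i _ => hlow a ha _ tsub_le_self) (by omega)
  rw [← hedef] at hlym
  have he1 : (3 : ℝ) ≤ (e : ℝ) := by exact_mod_cast he
  have hfanti : ∀ d d' : ℕ, d ≤ d' → f d' ≤ f d := by
    intro d d' hdd
    simp only [hf]
    apply div_le_div_of_nonneg_left (by linarith)
    · have : (0 : ℝ) ≤ (d : ℝ) := by positivity
      linarith
    · have : (d : ℝ) ≤ (d' : ℝ) := by exact_mod_cast hdd
      linarith
  have hf0 : ∀ d : ℕ, 0 ≤ f d := by
    intro d
    simp only [hf]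
    apply div_nonneg (by linarith)
    have : (0 : ℝ) ≤ (d : ℝ) := by positivity
    linarith
  have hsumD : ∑ a ∈ D, f a.degree = (((e + r - 2).choose (r - 1) : ℕ) : ℝ) := by
    have := sum_smpx_f (σ := σ) r hr0 (by omega)
    rw [← hedef] at this
    exact this
  have hsplit : ∑ a ∈ S, f a.degree = ∑ a ∈ S ∩ D, f a.degree + ∑ a ∈ S \ D, f a.degree :=
    (Finset.sum_inter_add_sum_sdiff S D (fun a => f a.degree)).symm
  have hSD : ∑ a ∈ S \ D, f a.degree ≤ f r * ((S \ D).card : ℝ) := by
    rw [mul_comm, ← nsmul_eq_mul]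
    apply Finset.sum_le_card_nsmul
    intro a ha
    rw [Finset.mem_sdiff] at ha
    apply hfanti
    by_contra hcon
    exact ha.2 (mem_smpx.2 ⟨Finset.subset_univ _, by omega⟩)
  have hDsplit : ∑ a ∈ D, f a.degree = ∑ a ∈ S ∩ D, f a.degree + ∑ a ∈ D \ S, f a.degree := by
    rw [Finset.inter_comm]
    exact (Finset.sum_inter_add_sum_sdiff D S (fun a => f a.degree)).symm
  have hcardSD : ((S \ D).card : ℝ) ≤ (m : ℝ) - (D.card : ℝ) + ((D \ S).card : ℝ) := by
    have h1 : (S \ D).card + (S ∩ D).card = S.card := Finset.card_sdiff_add_card_inter S D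
    have h2 : (D \ S).card + (D ∩ S).card = D.card := Finset.card_sdiff_add_card_inter D S
    rw [Finset.inter_comm] at h2
    have h3 : ((S \ D).card : ℝ) + ((S ∩ D).card : ℝ) = (S.card : ℝ) := by exact_mod_cast h1
    have h4 : ((D \ S).card : ℝ) + ((S ∩ D).card : ℝ) = (D.card : ℝ) := by exact_mod_cast h2
    have h5 : (S.card : ℝ) ≤ (m : ℝ) := by exact_mod_cast hScard
    linarith
  have hDS : (B.card : ℝ) * (f (r - 1 - q) - f r) ≤ ∑ a ∈ D \ S, (f a.degree - f r) := by
    calc (B.card : ℝ) * (f (r - 1 - q) - f r) ≤ ∑ a ∈ B, (f a.degree - f r) := by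
          rw [← nsmul_eq_mul]
          apply Finset.card_nsmul_le_sum
          intro a ha
          have := hfanti _ _ (hBdeg a ha)
          linarith
      _ ≤ ∑ a ∈ D \ S, (f a.degree - f r) := by
          apply Finset.sum_le_sum_of_subset_of_nonneg hBsub
          intro a ha _
          rw [Finset.mem_sdiff] at ha
          have h1 := (mem_smpx.1 ha.1).2
          have := hfanti a.degree r (by omega)
          linarith
  have hDSsum : ∑ a ∈ D \ S, (f a.degree - f r)
      = ∑ a ∈ D \ S, f a.degree - f r * ((D \ S).card : ℝ) := by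
    rw [Finset.sum_sub_distrib, Finset.sum_const, nsmul_eq_mul]; ring
  have hDcard : D.card = (e + r - 1).choose e := by
    rw [hD, card_smpx, Finset.card_univ, ← hedef]
    congr 1; omega
  have hmD : (m : ℝ) - (D.card : ℝ) < (((e + r - 1).choose r : ℕ) : ℝ) := by
    have h1 : (e + r).choose e = (e + r - 1).choose (e - 1) + (e + r - 1).choose e := by
      obtain ⟨k, hk⟩ : ∃ k, e = k + 1 := ⟨e - 1, by omega⟩
      rw [hk]
      have : k + 1 + r = (k + r) + 1 := by omega
      rw [this]
      simp [Nat.choose_succ_succ]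
    have h2 : (e + r - 1).choose r = (e + r - 1).choose (e - 1) := by
      apply Nat.choose_symm_of_eq_add; omega
    rw [hDcard, h2]
    rw [hsymm, h1] at hmr
    have : (m : ℝ) < (((e + r - 1).choose (e - 1) + (e + r - 1).choose e : ℕ) : ℝ) := by
      exact_mod_cast hmr
    push_cast at this
    linarith
  have hn2 := numeric_two e he q r hQ₂q hr1 hr2
  have hn2' : f r * (((e + r - 1).choose r : ℕ) : ℝ) ≤ (B.card : ℝ) * (f (r - 1 - q) - f r) := by
    rw [hBcard]
    exact hn2
  have hfr : 0 < f r := by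
    simp only [hf]
    apply div_pos (by linarith)
    have : (0 : ℝ) ≤ (r : ℝ) := by positivity
    linarith
  have hkey : ∑ a ∈ S, f a.degree < (((e + r - 2).choose (r - 1) : ℕ) : ℝ) := by
    have h1 := mul_le_mul_of_nonneg_left hcardSD hfr.le
    have h2 := mul_lt_mul_of_pos_left hmD hfr
    rw [hsplit]
    linarith
  have hlym' : (((S.filter (fun a => ∀ i, a + Finsupp.single i 1 ∉ S)).card : ℕ) : ℝ)
      ≤ ∑ a ∈ S, f a.degree := hlym
  exact_mod_cast lt_of_le_of_lt hlym' hkey

end Pool.Agent.H33
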